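import Pool.Agent.Helper43.TZ.Defs

/-!
# Project TZ (MP_0f6f3f_an): pigeonhole and powers
-/

set_option autoImplicit false

open MeasureTheory Filter Topology

namespace Pool.Agent.Helper96.TZ

open Pool.Agent.Helper43.TZ (Siz)

variable {S₁ S₂ Ω : Type} [Group S₁] [Group S₂] [TopologicalSpace S₂] [MeasurableSpace S₂] {μ : Measure S₂}

theorem siz_pow (z : Siz S₂ μ) (g : S₂) (a : ℕ) : 1 + z.ρ (g ^ a) ≤ Real.exp (a * z.ρ g) := by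
  induction a with
  | zero => simp [z.one]
  | succ a ih =>
    rw [pow_succ]
    have h1 := z.mul (g ^ a) g
    have h2 : Real.exp ((a + 1 : ℕ) * z.ρ g) = Real.exp (a * z.ρ g) * Real.exp (z.ρ g) := by
      rw [← Real.exp_add]
      congr 1
      push_cast
      ring
    rw [h2]
    have h3 : 1 + z.ρ g ≤ Real.exp (z.ρ g) := by
      have := Real.add_one_le_exp (z.ρ g)
      linarith
    calc 1 + z.ρ (g ^ a * g) ≤ (1 + z.ρ (g ^ a)) * (1 + z.ρ g) := by nlinarith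
      _ ≤ Real.exp (a * z.ρ g) * Real.exp (z.ρ g) := by
        have := z.nonneg g
        gcongr

/-- Pigeonhole and powers. -/
theorem pigeon (a₁ : S₁ → Ω → Ω) (a₂ : S₂ → Ω → Ω) (one₁ : ∀ ω, a₁ 1 ω = ω) (mul₁ : ∀ s t ω, a₁ (s * t) ω = a₁ s (a₁ t ω))
    (one₂ : ∀ ω, a₂ 1 ω = ω) (mul₂ : ∀ s t ω, a₂ (s * t) ω = a₂ s (a₂ t ω)) (comm : ∀ s h ω, a₁ s (a₂ h ω) = a₂ h (a₁ s ω))
    (z : Siz S₂ μ) {B₁ Sh : Set S₁} {d₁ : ℕ} (hd : z.d < d₁) {c C : ℝ} (hc : 0 < c)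
    (hfam : ∀ η : ℝ, 0 < η → η ≤ 1 → ∃ (N : ℕ) (s : Fin N → S₁), c ≤ N * η ^ d₁ ∧ (∀ i, s i ∈ B₁) ∧
      ∀ i j, i ≠ j → ∃ a : ℕ, a * η ≤ C ∧ ((s j)⁻¹ * s i) ^ a ∈ Sh)
    (ω₀ : Ω) {B : Set S₂} (hB : IsCompact B) (h1 : ∀ s ∈ B₁, ∃ g ∈ B, a₁ s ω₀ = a₂ g ω₀) {U : Set S₂} (hU : U ∈ 𝓝 (1 : S₂)) :
    ∃ t ∈ Sh, ∃ g ∈ U, a₁ t ω₀ = a₂ g ω₀ := by
  obtain ⟨C₁, hC₁, hnet⟩ := z.net B hB
  obtain ⟨r, hr, hrU⟩ := z.basis U hU
  set d₂ := z.d with hd₂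
  set E : ℝ := |C| * 5 with hE
  have hlim : ∃ ρ : ℝ, 0 < ρ ∧ ρ ≤ 1 / 2 ∧ C₁ * ρ < c ∧ Real.exp (E * ρ) < 1 + r := by
    have h2 : Tendsto (fun ρ : ℝ => Real.exp (E * ρ)) (𝓝[>] 0) (𝓝 1) := by
      have h3 : ContinuousAt (fun ρ : ℝ => Real.exp (E * ρ)) 0 := by fun_prop
      have h4 := h3.tendsto
      simp only [mul_zero, Real.exp_zero] at h4
      exact h4.mono_left nhdsWithin_le_nhds
    have h3 : Tendsto (fun ρ : ℝ => C₁ * ρ) (𝓝[>] 0) (𝓝 0) := by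
      have h3 : ContinuousAt (fun ρ : ℝ => C₁ * ρ) 0 := by fun_prop
      have h4 := h3.tendsto
      simp only [mul_zero] at h4
      exact h4.mono_left nhdsWithin_le_nhds
    have h4 : ∀ᶠ ρ : ℝ in 𝓝[>] 0, Real.exp (E * ρ) < 1 + r := h2.eventually (Iio_mem_nhds (by linarith))
    have h5 : ∀ᶠ ρ : ℝ in 𝓝[>] 0, C₁ * ρ < c := h3.eventually (Iio_mem_nhds hc)
    have h6 : ∀ᶠ ρ : ℝ in 𝓝[>] 0, 0 < ρ := self_mem_nhdsWithin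
    have h7 : ∀ᶠ ρ : ℝ in 𝓝[>] 0, ρ ≤ 1 / 2 := nhdsWithin_le_nhds (Iic_mem_nhds (by norm_num))
    obtain ⟨ρ, k1, k2, k3, k4⟩ := (h4.and (h5.and (h6.and h7))).exists
    exact ⟨ρ, k3, k4, k2, k1⟩
  obtain ⟨ρ, hρ0, hρ1, hρ2, hρ3⟩ := hlim
  set η : ℝ := ρ ^ (d₂ + 1) with hη
  set δ : ℝ := ρ ^ (d₂ + 2) with hδ
  have hη0 : 0 < η := by positivity
  have hη1 : η ≤ 1 := pow_le_one₀ hρ0.le (by linarith)
  have hδ0 : 0 < δ := by positivity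
  have hδη : δ = η * ρ := by rw [hδ, hη, ← pow_succ]
  have hδ1 : δ ≤ 1 / 2 := by
    rw [hδη]
    nlinarith
  obtain ⟨n, s, hn, hs, hpow⟩ := hfam η hη0 hη1
  obtain ⟨P, hP1, hP3⟩ := hnet δ hδ0 (by linarith)
  -- `P.card < n`
  have hcard : P.card < n := by
    by_contra hcon
    push Not at hcon
    have h2 : (n : ℝ) ≤ P.card := by exact_mod_cast hcon
    have h3 : η ^ d₁ ≤ δ ^ d₂ * ρ := by
      have h4 : η ^ d₁ = ρ ^ ((d₂ + 1) * d₁) := by rw [hη, ← pow_mul]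
      have h5 : δ ^ d₂ * ρ = ρ ^ ((d₂ + 2) * d₂ + 1) := by rw [hδ, ← pow_mul, ← pow_succ]
      rw [h4, h5]
      refine pow_le_pow_of_le_one hρ0.le (by linarith) ?_
      have h6 : d₂ + 1 ≤ d₁ := hd
      nlinarith [Nat.mul_le_mul_left (d₂ + 1) h6]
    have h4 : c ≤ C₁ * ρ := by
      calc c ≤ n * η ^ d₁ := hn
        _ ≤ P.card * (δ ^ d₂ * ρ) := by gcongr
        _ = (P.card * δ ^ d₂) * ρ := by ring
        _ ≤ C₁ * ρ := by gcongr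
    linarith
  choose g hgB hg using fun i => h1 (s i) (hs i)
  choose k hkP hk using fun i => hP3 (g i) (hgB i)
  obtain ⟨i, -, j, -, hij, hkk⟩ := Finset.exists_ne_map_eq_of_card_lt_of_maps_to (s := Finset.univ) (t := P) (f := k)
    (by simpa using hcard) (fun i _ => hkP i)
  obtain ⟨a, ha, hsh⟩ := hpow i j hij
  -- `(s j)⁻¹ s i ω₀ = g i (g j)⁻¹ ω₀`
  have h2 : a₁ (s j)⁻¹ ω₀ = a₂ (g j)⁻¹ ω₀ := by
    have h3 : a₁ (s j)⁻¹ (a₁ (s j) ω₀) = a₁ (s j)⁻¹ (a₂ (g j) ω₀) := by rw [hg]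
    rw [← mul₁, inv_mul_cancel, one₁, comm] at h3
    conv_rhs => rw [h3]
    rw [← mul₂, inv_mul_cancel, one₂]
  set w := g i * (g j)⁻¹ with hw
  have h3 : a₁ ((s j)⁻¹ * s i) ω₀ = a₂ w ω₀ := by
    rw [mul₁, hg, comm, h2, ← mul₂]
  have h4 : ∀ b : ℕ, a₁ (((s j)⁻¹ * s i) ^ b) ω₀ = a₂ (w ^ b) ω₀ := by
    intro b
    induction b with
    | zero => rw [pow_zero, pow_zero, one₁, one₂]
    | succ b ih => rw [pow_succ, mul₁, h3, comm, ih, ← mul₂, ← pow_succ']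
  refine ⟨_, hsh, w ^ a, hrU _ ?_, h4 a⟩
  -- the length of `w`
  set u := g i * (k i)⁻¹ with hu
  set v := g j * (k i)⁻¹ with hv
  have hu1 : z.ρ u ≤ δ := hk i
  have hv1 : z.ρ v ≤ δ := by
    have := hk j
    rwa [← hkk] at this
  have hw1 : w = u * v⁻¹ := by
    rw [hw, hu, hv]
    group
  have hv2 : z.ρ v⁻¹ ≤ 2 * δ := (z.inv v (hv1.trans hδ1)).trans (by linarith)
  have hw2 : z.ρ w ≤ 5 * δ := by
    rw [hw1]
    have h5 := z.mul u v⁻¹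
    have h6 : z.ρ u * z.ρ v⁻¹ ≤ δ * (2 * δ) := mul_le_mul hu1 hv2 (z.nonneg _) hδ0.le
    nlinarith
  have h5 := siz_pow z w a
  have h6 : (a : ℝ) * z.ρ w ≤ E * ρ := by
    have ha' : (0 : ℝ) ≤ a := Nat.cast_nonneg a
    calc (a : ℝ) * z.ρ w ≤ a * (5 * δ) := by gcongr
      _ = (a * η) * (5 * ρ) := by rw [hδη]; ring
      _ ≤ |C| * (5 * ρ) := by
        gcongr
        exact ha.trans (le_abs_self C)
      _ = E * ρ := by rw [hE]; ring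
  have h7 : Real.exp (a * z.ρ w) ≤ Real.exp (E * ρ) := Real.exp_le_exp.2 h6
  linarith

end Pool.Agent.Helper96.TZ
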