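import Pool.Agent.Helper96.TZ.St
import Pool.Agent.Helper96.TZ.Pig
import Pool.Agent.Helper43.TZ.T5
import Pool.Agent.Helper43.TZ.D34

/-!
# Project TZ (MP_0f6f3f_an): the dimension lemma

`exists_triv_Z`: if the dimension of `S1` is larger than the dimension of `S2`, an element of the shell acts trivially on the centre of `J`.
-/

set_option autoImplicit false
set_option linter.unusedSectionVars false

open MeasureTheory Filter Topology
open scoped ENNReal Pointwise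

namespace Pool.Agent.Helper96.TZ

open Pool.Agent.Helper43.TZ

variable {S1 S2 H : Type} [Group S1] [TopologicalSpace S1] [IsTopologicalGroup S1] [Group S2] [TopologicalSpace S2] [IsTopologicalGroup S2]
  [LocallyCompactSpace S2] [SecondCountableTopology S2] [T2Space S2] [MeasurableSpace S2] [BorelSpace S2]
  {μ : Measure S2} [μ.IsHaarMeasure] [NormedAddCommGroup H] [InnerProductSpace ℂ H] [CompleteSpace H]

section Appr

variable {A : Set (H →L[ℂ] H)} {Ω : Type} [TopologicalSpace Ω] [CompactSpace Ω] [T2Space Ω]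

/-- Translation by `S1`. -/
noncomputable def tr1 (L : Lev S1 S2 H μ) (G : GF L.V L.W A Ω) (s : S1) (f : C(Ω, ℝ)) : C(Ω, ℝ) := f.comp ⟨G.a₁ s, G.cont₁ s⟩

theorem tr1_apply (L : Lev S1 S2 H μ) (G : GF L.V L.W A Ω) (s : S1) (f : C(Ω, ℝ)) (ω : Ω) : tr1 L G s f ω = f (G.a₁ s ω) := rfl

theorem θ_tr1 (L : Lev S1 S2 H μ) (G : GF L.V L.W A Ω) (s : S1) (f : C(Ω, ℝ)) : G.θ (tr1 L G s f) = cj (L.V s).symm (G.θ f) := by
  have h1 : cj (L.V s) (G.θ (tr1 L G s f)) = G.θ f := G.eV s f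
  rw [← h1]
  refine ContinuousLinearMap.ext fun x => ?_
  change _ = (L.V s).symm (L.V s (G.θ (tr1 L G s f) ((L.V s).symm (L.V s x))))
  rw [LinearIsometryEquiv.symm_apply_apply, LinearIsometryEquiv.symm_apply_apply]

/-- The points `s ω₀`, `s ∈ B1`, are in the orbit of `S2`. -/
theorem exists_move (L : Lev S1 S2 H μ) (G : GF L.V L.W A Ω) {B1 : Set S1} {B : Set S2} (hB : IsCompact B) (ω₀ : Ω) {ζ : H} (hζ : ‖ζ‖ = 1)
    (h1 : ∀ s ∈ B1, ∀ f : C(Ω, ℝ), 0 ≤ f → f ≤ 1 → (∀ h ∈ B, f (G.a₂ h ω₀) = 0) → G.fn ((L.V s).symm ζ) f ≤ 1 / 4)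
    (h2 : ∀ f : C(Ω, ℝ), 0 ≤ f → f ≤ 1 → (∀ h ∈ B, f (G.a₂ h ω₀) = 0) → G.fn ζ f ≤ 1 / 4) :
    ∀ s ∈ B1, ∃ g ∈ B⁻¹ * B, G.a₁ s ω₀ = G.a₂ g ω₀ := by
  intro s hs
  set K : Set Ω := (fun h => G.a₂ h ω₀) '' B with hK
  have hKc : IsCompact K := hB.image (G.cont₂.comp (Continuous.prodMk continuous_id continuous_const))
  obtain ⟨ω, ⟨h, hh, hω⟩, ω', ⟨h', hh', hω'⟩, hω2⟩ := meet (G.fn ζ) (by rw [GF.fn_apply, G.one_apply, ips', hζ, one_pow])
    hKc.isClosed (hKc.image (G.cont₁ s)).isClosed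
    (fun f f0 f1 hf => h2 f f0 f1 fun h hh => hf _ ⟨h, hh, rfl⟩)
    (fun f f0 f1 hf => by
      have k1 := h1 s hs (tr1 L G s f) (fun ω => f0 (G.a₁ s ω)) (fun ω => f1 (G.a₁ s ω))
        (fun h hh => hf _ ⟨_, ⟨h, hh, rfl⟩, rfl⟩)
      rw [GF.fn_apply, θ_tr1, cj_apply] at k1
      rw [GF.fn_apply]
      refine le_trans (le_of_eq ?_) k1
      rw [LinearIsometryEquiv.inner_map_map, LinearIsometryEquiv.symm_symm, LinearIsometryEquiv.apply_symm_apply])
  refine ⟨h'⁻¹ * h, Set.mul_mem_mul (Set.inv_mem_inv.2 hh') hh, ?_⟩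
  rw [← hω'] at hω2
  change G.a₂ h ω₀ = ω at hω
  change G.a₁ s (G.a₂ h' ω₀) = ω at hω2
  rw [G.mul₂, hω, ← hω2, G.comm, ← G.mul₂, inv_mul_cancel, G.one₂]

/-- The main approximation. -/
theorem approx (L : Lev S1 S2 H μ) (z : Siz S2 μ) (F : Fam S1) (hd : z.d < F.d1) (G : GF L.V L.W A Ω) (hA : ∀ a ∈ A, a ∈ L.Z)
    {x : H →L[ℂ] H} (hxJ : x ∈ L.J) (hx : L.I2 x) (hx0 : x ≠ 0) {m n : ℕ} (v : Fin n → H) (hv : ∀ i, ‖v i‖ ≤ 1)
    (f : Fin m → C(Ω, ℝ)) {ε : ℝ} (hε : 0 < ε) :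
    ∃ t ∈ F.Sg, ∀ i j, ‖cj (L.V t).symm (G.θ (f j)) (v i) - G.θ (f j) (v i)‖ ≤ ε := by
  classical
  obtain ⟨ζ, hζ⟩ : ∃ ζ : H, ‖ζ‖ = 1 := by
    obtain ⟨w, hw⟩ : ∃ w, x w ≠ 0 := by
      by_contra h
      push Not at h
      exact hx0 (ContinuousLinearMap.ext h)
    have hw0 : w ≠ 0 := by
      rintro rfl
      exact hw (map_zero x)
    exact ⟨((‖w‖ : ℂ))⁻¹ • w, by
      rw [norm_smul, norm_inv, Complex.norm_real, norm_norm, inv_mul_cancel₀ (norm_ne_zero_iff.2 hw0)]⟩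
  -- bound of the functions
  obtain ⟨R, hR0, hR⟩ : ∃ R : ℝ, 0 < R ∧ ∀ j, ‖f j‖ ≤ R := by
    refine ⟨∑ j, ‖f j‖ + 1, by positivity, fun j => ?_⟩
    have := Finset.single_le_sum (f := fun j => ‖f j‖) (fun i _ => norm_nonneg _) (Finset.mem_univ j)
    linarith
  -- the compact set of vectors `V(s)⁻¹ ζ`
  have hcV : Continuous fun s => (L.V s).symm ζ := by
    have h1 : ∀ s, (L.V s).symm ζ = L.V s⁻¹ ζ := fun s => by
      have h2 : L.V s (L.V s⁻¹ ζ) = ζ := by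
        have h3 : (L.V s * L.V s⁻¹) ζ = ζ := by rw [← map_mul, mul_inv_cancel, map_one]; rfl
        exact h3
      conv_lhs => rw [← h2]
      rw [LinearIsometryEquiv.symm_apply_apply]
    simp_rw [h1]
    exact (L.Vc ζ).comp continuous_inv
  obtain ⟨N, hN, hN2⟩ : ∃ N : Finset H, (∀ y ∈ N, ‖y‖ ≤ 1) ∧ ∀ s ∈ F.B1, ∃ y ∈ N, ‖(L.V s).symm ζ - y‖ ≤ 1 / 32 := by
    have h1 : IsCompact ((fun s => (L.V s).symm ζ) '' F.B1) := F.hB1.image hcV
    obtain ⟨t, ht1, ht2, ht3⟩ := h1.finite_cover_balls (show (0 : ℝ) < 1 / 32 by norm_num)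
    refine ⟨ht2.toFinset, fun y hy => ?_, fun s hs => ?_⟩
    · obtain ⟨s, -, rfl⟩ := ht1 (ht2.mem_toFinset.1 hy)
      change ‖(L.V s).symm ζ‖ ≤ 1
      rw [LinearIsometryEquiv.norm_map, hζ]
    · obtain ⟨y, hy, hy2⟩ := Set.mem_iUnion₂.1 (ht3 ⟨s, hs, rfl⟩)
      refine ⟨y, ht2.mem_toFinset.2 hy, ?_⟩
      rw [Metric.mem_ball, dist_eq_norm] at hy2
      exact hy2.le
  -- all the vectors
  set l : List H := List.ofFn v ++ (ζ :: N.toList) with hl
  have hlm : ∀ w ∈ l, ‖w‖ ≤ 1 := by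
    intro w h1
    rw [hl, List.mem_append, List.mem_cons] at h1
    rcases h1 with h1 | h1 | h1
    · obtain ⟨k, hk⟩ := (List.mem_ofFn' _ _).1 h1
      rw [← hk]
      exact hv k
    · rw [h1, hζ]
    · exact hN _ (Finset.mem_toList.1 h1)
  have hlv : ∀ i : Fin l.length, ‖l.get i‖ ≤ 1 := fun i => hlm _ (List.get_mem l i)
  set ε₁ : ℝ := min (1 / 8) (ε ^ 2 / (8 * R ^ 2)) with hε₁
  have hε₁0 : 0 < ε₁ := lt_min (by norm_num) (by positivity)
  have hε₁1 : ε₁ ≤ 1 / 8 := min_le_left _ _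
  have hε₁2 : ε₁ * (4 * R ^ 2) ≤ ε ^ 2 / 2 := by
    have h1 : ε₁ ≤ ε ^ 2 / (8 * R ^ 2) := min_le_right _ _
    calc ε₁ * (4 * R ^ 2) ≤ ε ^ 2 / (8 * R ^ 2) * (4 * R ^ 2) := by gcongr
      _ = ε ^ 2 / 2 := by field_simp; ring
  obtain ⟨B, hB, ω₀, hst⟩ := exists_st L G hA hxJ hx hx0 (fun i => l.get i) hlv hε₁0
  have hst' : ∀ w ∈ l, ∀ (f : C(Ω, ℝ)) (c : ℝ), 0 ≤ f → 0 ≤ c → (∀ h ∈ B, f (G.a₂ h ω₀) ≤ c) → G.fn w f ≤ c + ε₁ * ‖f‖ := by
    intro w hw
    obtain ⟨i, hi⟩ := List.get_of_mem hw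
    rw [← hi]
    exact hst i
  have hn1 : ∀ f : C(Ω, ℝ), 0 ≤ f → f ≤ 1 → ‖f‖ ≤ 1 := fun f f0 f1 => by
    rw [ContinuousMap.norm_le f zero_le_one]
    intro ω
    rw [Real.norm_of_nonneg (show 0 ≤ f ω from f0 ω)]
    exact f1 ω
  have hmv := exists_move L G (B1 := F.B1) hB ω₀ hζ (by
      intro s hs f f0 f1 hf
      obtain ⟨y, hy, hy2⟩ := hN2 s hs
      have k1 := hst' y (by
        rw [hl, List.mem_append, List.mem_cons]
        exact Or.inr (Or.inr (Finset.mem_toList.2 hy))) f 0 f0 le_rfl fun h hh => (hf h hh).le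
      have k2 := G.inner_close f ((L.V s).symm ζ) y (by rw [LinearIsometryEquiv.norm_map, hζ]) (hN y hy)
      rw [GF.fn_apply] at k1 ⊢
      have k3 := hn1 f f0 f1
      have k4 : 2 * ‖f‖ * ‖(L.V s).symm ζ - y‖ ≤ 2 * 1 * (1 / 32) := by gcongr
      have k5 : ε₁ * ‖f‖ ≤ 1 / 8 * 1 := by gcongr
      linarith) (by
      intro f f0 f1 hf
      have k1 := hst' ζ (by
        rw [hl, List.mem_append, List.mem_cons]
        exact Or.inr (Or.inl rfl)) f 0 f0 le_rfl fun h hh => (hf h hh).le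
      have k3 := hn1 f f0 f1
      have k5 : ε₁ * ‖f‖ ≤ 1 / 8 * 1 := by gcongr
      linarith)
  -- the neighbourhood of `1`
  have hU : {g : S2 | ∀ h ∈ B, ∀ j, |f j (G.a₂ (h * g) ω₀) - f j (G.a₂ h ω₀)| < ε / 2} ∈ 𝓝 (1 : S2) := by
    refine hB.eventually_forall_of_forall_eventually (x₀ := (1 : S2)) (P := fun g h => ∀ j, |f j (G.a₂ (h * g) ω₀) - f j (G.a₂ h ω₀)| < ε / 2)
      fun h hh => ?_
    rw [eventually_all]
    intro j
    have k1 : Continuous fun p : S2 × S2 => |f j (G.a₂ (p.2 * p.1) ω₀) - f j (G.a₂ p.2 ω₀)| := by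
      refine (Continuous.sub ((f j).continuous.comp (G.cont₂.comp (Continuous.prodMk (continuous_snd.mul continuous_fst) continuous_const)))
        ((f j).continuous.comp (G.cont₂.comp (Continuous.prodMk continuous_snd continuous_const)))).abs
    refine k1.continuousAt.eventually_lt continuousAt_const ?_
    change |f j (G.a₂ (h * 1) ω₀) - f j (G.a₂ h ω₀)| < ε / 2
    rw [mul_one, sub_self, abs_zero]
    positivity
  obtain ⟨t, ht, g, hg, htg⟩ := pigeon G.a₁ G.a₂ G.one₁ G.mul₁ G.one₂ G.mul₂ G.comm z hd F.c_pos F.fam ω₀ (hB.inv.mul hB) hmv hU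
  refine ⟨t, ht, fun i j => ?_⟩
  -- the function `Φ = f ∘ t - f`
  set Φ : C(Ω, ℝ) := tr1 L G t (f j) - f j with hΦ
  have e1 : cj (L.V t).symm (G.θ (f j)) (v i) - G.θ (f j) (v i) = G.θ Φ (v i) := by
    rw [hΦ, G.sub, θ_tr1]
    rfl
  rw [e1]
  have e2 : ∀ h ∈ B, (Φ * Φ) (G.a₂ h ω₀) ≤ (ε / 2) ^ 2 := by
    intro h hh
    have k1 := hg h hh j
    have k2 : Φ (G.a₂ h ω₀) = f j (G.a₂ (h * g) ω₀) - f j (G.a₂ h ω₀) := by
      change f j (G.a₁ t (G.a₂ h ω₀)) - f j (G.a₂ h ω₀) = _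
      rw [G.comm, htg, ← G.mul₂]
    rw [ContinuousMap.mul_apply, k2, ← abs_mul_abs_self, ← sq]
    exact pow_le_pow_left₀ (abs_nonneg _) k1.le 2
  have e3 : ‖Φ‖ ≤ 2 * R := by
    rw [ContinuousMap.norm_le _ (by positivity)]
    intro ω
    change ‖f j (G.a₁ t ω) - f j ω‖ ≤ 2 * R
    refine (norm_sub_le _ _).trans ?_
    have k1 := (f j).norm_coe_le_norm (G.a₁ t ω)
    have k2 := (f j).norm_coe_le_norm ω
    linarith [hR j]
  have e4 : ‖Φ * Φ‖ ≤ 4 * R ^ 2 := by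
    refine (norm_mul_le _ _).trans ?_
    nlinarith [norm_nonneg Φ]
  have e5 := hst' (v i) (by
    rw [hl, List.mem_append]
    exact Or.inl ((List.mem_ofFn' _ _).2 ⟨i, rfl⟩)) (Φ * Φ) ((ε / 2) ^ 2) (fun ω => mul_self_nonneg (Φ ω)) (by positivity) e2
  rw [GF.fn_apply, G.inner_mul_self] at e5
  have e6 : ε₁ * ‖Φ * Φ‖ ≤ ε ^ 2 / 2 := (mul_le_mul_of_nonneg_left e4 hε₁0.le).trans hε₁2
  have e7 : ‖G.θ Φ (v i)‖ ^ 2 ≤ ε ^ 2 := by nlinarith [sq_nonneg ε]
  exact abs_le_of_sq_le_sq' e7 hε.le |>.2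

end Appr

theorem isClosed_Z (L : Lev S1 S2 H μ) : IsClosed (L.Z : Set (H →L[ℂ] H)) := by
  have h1 : ∀ s : Set (H →L[ℂ] H), IsClosed (StarSubalgebra.centralizer ℂ s : Set (H →L[ℂ] H)) := by
    intro s
    have h2 : (StarSubalgebra.centralizer ℂ s : Set (H →L[ℂ] H)) = ⋂ g ∈ s, {z | g * z = z * g ∧ star g * z = z * star g} := by
      ext z
      simp only [Set.mem_iInter, Set.mem_ofPred_eq]
      exact StarSubalgebra.mem_centralizer_iff ℂ
    rw [h2]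
    refine isClosed_biInter fun g _ => ?_
    exact (isClosed_eq (continuous_const.mul continuous_id) (continuous_id.mul continuous_const)).inter
      (isClosed_eq (continuous_const.mul continuous_id) (continuous_id.mul continuous_const))
  exact (h1 _).inter (h1 _)

/-- The norm continuous elements of the centre. -/
noncomputable def AZ (L : Lev S1 S2 H μ) : StarSubalgebra ℂ (H →L[ℂ] H) where
  carrier := {a | a ∈ L.Z ∧ Continuous fun h => cj (L.W h) a}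
  mul_mem' := fun {a b} ha hb => ⟨L.Z.mul_mem ha.1 hb.1, by
    simp_rw [cj_mul']
    exact ha.2.mul hb.2⟩
  add_mem' := fun {a b} ha hb => ⟨L.Z.add_mem ha.1 hb.1, by
    simp_rw [cj_add]
    exact ha.2.add hb.2⟩
  algebraMap_mem' := fun r => ⟨L.Z.algebraMap_mem r, by
    have h1 : ∀ h, cj (L.W h) (algebraMap ℂ (H →L[ℂ] H) r) = algebraMap ℂ (H →L[ℂ] H) r := fun h => by
      rw [Algebra.algebraMap_eq_smul_one, cj_smul', cj_one']
    simp_rw [h1]
    exact continuous_const⟩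
  star_mem' := fun {a} ha => ⟨star_mem ha.1, by
    simp_rw [cj_star]
    exact ha.2.star⟩

theorem mem_AZ (L : Lev S1 S2 H μ) {a : H →L[ℂ] H} : a ∈ AZ L ↔ a ∈ L.Z ∧ Continuous fun h => cj (L.W h) a := Iff.rfl

theorem isClosed_AZ (L : Lev S1 S2 H μ) : IsClosed (AZ L : Set (H →L[ℂ] H)) := by
  have h1 : (AZ L : Set (H →L[ℂ] H)) = (L.Z : Set (H →L[ℂ] H)) ∩ {a | Continuous fun h => cj (L.W h) a} := rfl
  rw [h1]
  refine (isClosed_Z L).inter ?_
  rw [← isSeqClosed_iff_isClosed]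
  intro a b ha hb
  change Continuous fun h => cj (L.W h) b
  have h2 : TendstoUniformly (fun n h => cj (L.W h) (a n)) (fun h => cj (L.W h) b) atTop := by
    rw [Metric.tendstoUniformly_iff]
    intro ε hε
    have h3 := (Metric.tendsto_atTop.1 hb) ε hε
    obtain ⟨N, hN⟩ := h3
    refine eventually_atTop.2 ⟨N, fun n hn h => ?_⟩
    rw [dist_comm, dist_eq_norm, ← cj_sub']
    refine (norm_cj_le _ _).trans_lt ?_
    rw [← dist_eq_norm]
    exact hN n hn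
  exact h2.continuous (Eventually.of_forall ha).frequently

theorem AZ_cjW [μ.IsMulRightInvariant] (L : Lev S1 S2 H μ) {a : H →L[ℂ] H} (ha : a ∈ AZ L) (h : S2) : cj (L.W h) a ∈ AZ L := by
  refine ⟨⟨L.RW a ha.1.1 h, cjW_J' L ha.1.2 h⟩, ?_⟩
  have h1 : ∀ g, cj (L.W g) (cj (L.W h) a) = cj (L.W (g * h)) a := fun g => (cj_hom L.W g h a).symm
  simp_rw [h1]
  exact ha.2.comp (continuous_id.mul continuous_const)

theorem AZ_cjV [μ.IsMulRightInvariant] (L : Lev S1 S2 H μ) {a : H →L[ℂ] H} (ha : a ∈ AZ L) (s : S1) : cj (L.V s) a ∈ AZ L := by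
  refine ⟨⟨L.RV a ha.1.1 s, cjV_J' L ha.1.2 s⟩, ?_⟩
  have h1 : ∀ g, cj (L.W g) (cj (L.V s) a) = cj (L.V s) (cj (L.W g) a) := fun g => by
    refine ContinuousLinearMap.ext fun x => ?_
    have h2 : (L.V s).symm ((L.W g).symm x) = (L.W g).symm ((L.V s).symm x) := by
      have h3 : L.W g (L.V s ((L.W g).symm ((L.V s).symm x))) = x := by
        rw [← L.VW, LinearIsometryEquiv.apply_symm_apply, LinearIsometryEquiv.apply_symm_apply]
      conv_lhs => rw [← h3]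
      rw [LinearIsometryEquiv.symm_apply_apply, LinearIsometryEquiv.symm_apply_apply]
    rw [cj_apply, cj_apply, cj_apply, cj_apply, L.VW, h2]
  simp_rw [h1]
  have h2 : Continuous fun b : H →L[ℂ] H => cj (L.V s) b := by
    refine (LipschitzWith.of_dist_le_mul (K := 1) fun b c => ?_).continuous
    rw [dist_eq_norm, dist_eq_norm, ← cj_sub', NNReal.coe_one, one_mul]
    exact norm_cj_le _ _
  exact h2.comp ha.2

theorem V_symm (L : Lev S1 S2 H μ) (s : S1) (x : H) : (L.V s).symm x = L.V s⁻¹ x := by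
  have h2 : L.V s (L.V s⁻¹ x) = x := by
    have h3 : (L.V s * L.V s⁻¹) x = x := by rw [← map_mul, mul_inv_cancel, map_one]; rfl
    exact h3
  conv_lhs => rw [← h2]
  rw [LinearIsometryEquiv.symm_apply_apply]

theorem continuous_cjV (L : Lev S1 S2 H μ) (a : H →L[ℂ] H) (x : H) : Continuous fun t => cj (L.V t).symm a x := by
  have h1 : ∀ t, cj (L.V t).symm a x = L.V t⁻¹ (a (L.V t x)) := fun t => by
    rw [cj_apply, V_symm]
    rfl
  simp_rw [h1]
  have h2 : Continuous fun t => a (L.V t x) := a.continuous.comp (L.Vc x)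
  rw [continuous_iff_continuousAt]
  intro t₀
  have h3 : Tendsto (fun t => L.V t⁻¹ (a (L.V t x) - a (L.V t₀ x))) (𝓝 t₀) (𝓝 0) := by
    refine squeeze_zero_norm (a := fun t => ‖a (L.V t x) - a (L.V t₀ x)‖) (fun t => le_of_eq ((L.V t⁻¹).norm_map _)) ?_
    have h4 : Tendsto (fun t => ‖a (L.V t x) - a (L.V t₀ x)‖) (𝓝 t₀) (𝓝 ‖a (L.V t₀ x) - a (L.V t₀ x)‖) :=
      (h2.sub continuous_const).norm.tendsto t₀
    rwa [sub_self, norm_zero] at h4
  have h5 := h3.add (((L.Vc (a (L.V t₀ x))).comp continuous_inv).tendsto t₀)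
  rw [zero_add] at h5
  refine h5.congr fun t => ?_
  change L.V t⁻¹ (a (L.V t x) - a (L.V t₀ x)) + L.V t⁻¹ (a (L.V t₀ x)) = L.V t⁻¹ (a (L.V t x))
  rw [map_sub, sub_add_cancel]

/-- THE DIMENSION LEMMA. -/
theorem exists_triv_Z [μ.IsMulRightInvariant] (L : Lev S1 S2 H μ) (z : Siz S2 μ) (F : Fam S1) (hd : z.d < F.d1) :
    ∃ t ∈ F.Sg, ∀ a ∈ L.Z, cj (L.V t) a = a := by
  classical
  obtain ⟨x, ⟨hxJ, -, hx⟩, hx0⟩ := exists_x L z
  have hcomm : ∀ a ∈ L.Z, ∀ b ∈ L.Z, a * b = b * a := fun a ha b hb =>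
    ContinuousLinearMap.ext fun ξ => mem_Z_comm L ha hb.1 ξ
  obtain ⟨Ω, i1, i2, i3, ⟨G⟩⟩ := exists_gf L.V L.W L.VW (AZ L) (isClosed_AZ L) (fun a ha b hb => hcomm a ha.1 b hb.1)
    (fun a ha s => AZ_cjV L ha s) (fun a ha h => AZ_cjW L ha h) (fun a ha => ha.2)
  have hA : ∀ a ∈ (AZ L : Set (H →L[ℂ] H)), a ∈ L.Z := fun a ha => ha.1
  -- compactness
  set T : ({w : H // ‖w‖ ≤ 1} × C(Ω, ℝ) × ℕ) → Set S1 := fun p =>
    {t | ‖cj (L.V t).symm (G.θ p.2.1) p.1 - G.θ p.2.1 p.1‖ ≤ 1 / (p.2.2 + 1)} with hT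
  obtain ⟨t, ht, ht2⟩ := F.hSg.inter_iInter_nonempty T (fun p =>
      isClosed_le (((continuous_cjV L _ _).sub continuous_const).norm) continuous_const) (by
    intro u
    set l := u.toList with hl
    have hlu : ∀ p ∈ u, ∃ i : Fin l.length, l.get i = p := fun p hp => List.get_of_mem (Finset.mem_toList.2 hp)
    obtain ⟨N, hN⟩ : ∃ N : ℕ, ∀ p ∈ u, p.2.2 ≤ N := ⟨u.sup fun p => p.2.2, fun p hp => Finset.le_sup (f := fun p => p.2.2) hp⟩
    obtain ⟨t, ht, ht2⟩ := approx L z F hd G hA hxJ hx hx0 (fun i : Fin l.length => ((l.get i).1 : H)) (fun i => (l.get i).1.2)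
      (fun i : Fin l.length => (l.get i).2.1) (show (0 : ℝ) < 1 / (N + 1) by positivity)
    refine ⟨t, ht, Set.mem_iInter₂.2 fun p hp => ?_⟩
    obtain ⟨i, hi⟩ := hlu p hp
    have h1 := ht2 i i
    rw [hi] at h1
    refine h1.trans ?_
    have h2 : (p.2.2 : ℝ) ≤ N := by exact_mod_cast hN p hp
    exact one_div_le_one_div_of_le (by positivity) (by linarith))
  rw [Set.mem_iInter] at ht2
  refine ⟨t, ht, ?_⟩
  have h1 : ∀ f : C(Ω, ℝ), cj (L.V t).symm (G.θ f) = G.θ f := by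
    intro f
    have h2 : ∀ w : H, ‖w‖ ≤ 1 → cj (L.V t).symm (G.θ f) w = G.θ f w := by
      intro w hw
      have h3 : ‖cj (L.V t).symm (G.θ f) w - G.θ f w‖ ≤ 0 := by
        exact ge_of_tendsto' tendsto_one_div_add_atTop_nhds_zero_nat fun n => ht2 (⟨w, hw⟩, f, n)
      exact sub_eq_zero.1 (norm_le_zero_iff.1 h3)
    refine ContinuousLinearMap.ext fun w => ?_
    by_cases hw : w = 0
    · rw [hw, map_zero, map_zero]
    have h3 := h2 (((‖w‖ : ℂ))⁻¹ • w) (by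
      rw [norm_smul, norm_inv, Complex.norm_real, norm_norm, inv_mul_cancel₀ (norm_ne_zero_iff.2 hw)])
    rw [map_smul, map_smul] at h3
    have h4 : ((‖w‖ : ℂ))⁻¹ ≠ 0 := inv_ne_zero (by exact_mod_cast norm_ne_zero_iff.2 hw)
    exact smul_right_injective H h4 h3
  -- `V t` commutes with the range of `θ`
  set c : H →L[ℂ] H := ((L.V t).toContinuousLinearEquiv : H →L[ℂ] H) with hc
  have hcomm_of : ∀ a : H →L[ℂ] H, cj (L.V t).symm a = a → a * c = c * a := by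
    intro a ha
    refine ContinuousLinearMap.ext fun x => ?_
    change a (L.V t x) = L.V t (a x)
    have h2 : (L.V t).symm (a (L.V t x)) = a x := congrArg (fun T : H →L[ℂ] H => T x) ha
    rw [← h2, LinearIsometryEquiv.apply_symm_apply]
  have hθ : ∀ f, G.θ f * c = c * G.θ f := fun f => hcomm_of _ (h1 f)
  have hAZ : ∀ a ∈ AZ L, a * c = c * a := by
    intro a ha
    have k1 : ∀ b ∈ AZ L, star b = b → b * c = c * b := by
      intro b hb hs
      obtain ⟨f, hf⟩ := G.surj b hb (fun x y => by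
        rw [ContinuousLinearMap.star_eq_adjoint] at hs
        conv_lhs => rw [← hs]
        rw [ContinuousLinearMap.adjoint_inner_left])
      rw [← hf]
      exact hθ f
    have hsa : star a ∈ AZ L := star_mem ha
    have k2 := k1 (a + star a) ((AZ L).add_mem ha hsa) (by rw [star_add, star_star, add_comm])
    have k3 := k1 (Complex.I • (a - star a)) ((AZ L).smul_mem ((AZ L).sub_mem ha hsa) _) (by
      rw [star_smul, star_sub, star_star, Complex.star_def, Complex.conj_I, neg_smul, ← smul_neg, neg_sub])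
    have k4 : (a - star a) * c = c * (a - star a) := by
      rw [smul_mul_assoc, mul_smul_comm] at k3
      exact smul_right_injective _ Complex.I_ne_zero k3
    have k5 : (2 : ℂ) • (a * c) = (2 : ℂ) • (c * a) := by
      have e1 : (2 : ℂ) • (a * c) = (a + star a) * c + (a - star a) * c := by
        rw [two_smul, add_mul, sub_mul]; abel
      have e2 : (2 : ℂ) • (c * a) = c * (a + star a) + c * (a - star a) := by
        rw [two_smul, mul_add, mul_sub]; abel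
      rw [e1, e2, k2, k4]
    exact smul_right_injective _ (two_ne_zero : (2 : ℂ) ≠ 0) k5
  have hZ := comm_of_lipZ L z c fun a ha hl => hAZ a ⟨ha, hl.cont⟩
  intro a ha
  refine ContinuousLinearMap.ext fun x => ?_
  have h2 : a (L.V t ((L.V t).symm x)) = L.V t (a ((L.V t).symm x)) := congrArg (fun T : H →L[ℂ] H => T ((L.V t).symm x)) (hZ a ha)
  rw [cj_apply, ← h2, LinearIsometryEquiv.apply_symm_apply]

end Pool.Agent.Helper96.TZ
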