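import Pool.Agent.Helper43.TZ.Defs

/-!
# Project TZ (MP_0f6f3f_an): the character space of a commutative algebra of operators with two group actions

`GF V W A Ω`: `A` is `C(Ω)`; only the selfadjoint part is used: `θ : C(Ω, ℝ) → B(H)`. `exists_gf`: Gelfand duality.
-/

set_option autoImplicit false

open Filter Topology

namespace Pool.Agent.Helper96.TZ

open Pool.Agent.Helper43.TZ (cj cj_apply)

section CJ

variable {H : Type} [NormedAddCommGroup H] [InnerProductSpace ℂ H]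

theorem cj_add (u : H ≃ₗᵢ[ℂ] H) (a b : H →L[ℂ] H) : cj u (a + b) = cj u a + cj u b :=
  ContinuousLinearMap.ext fun x => by
    rw [_root_.add_apply, cj_apply, cj_apply, cj_apply, _root_.add_apply, map_add]

theorem cj_sub' (u : H ≃ₗᵢ[ℂ] H) (a b : H →L[ℂ] H) : cj u (a - b) = cj u a - cj u b :=
  ContinuousLinearMap.ext fun x => by
    rw [_root_.sub_apply, cj_apply, cj_apply, cj_apply, _root_.sub_apply, map_sub]

theorem cj_mul' (u : H ≃ₗᵢ[ℂ] H) (a b : H →L[ℂ] H) : cj u (a * b) = cj u a * cj u b :=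
  ContinuousLinearMap.ext fun x => by
    change u (a (b (u.symm x))) = u (a (u.symm (u (b (u.symm x)))))
    rw [LinearIsometryEquiv.symm_apply_apply]

theorem cj_smul' (u : H ≃ₗᵢ[ℂ] H) (c : ℂ) (a : H →L[ℂ] H) : cj u (c • a) = c • cj u a :=
  ContinuousLinearMap.ext fun x => by
    change u (c • a (u.symm x)) = c • u (a (u.symm x))
    rw [map_smul]

theorem cj_one' (u : H ≃ₗᵢ[ℂ] H) : cj u (1 : H →L[ℂ] H) = 1 :=
  ContinuousLinearMap.ext fun x => u.apply_symm_apply x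

theorem cj_zero' (u : H ≃ₗᵢ[ℂ] H) : cj u (0 : H →L[ℂ] H) = 0 :=
  ContinuousLinearMap.ext fun x => by
    rw [cj_apply, _root_.zero_apply, map_zero]
    rfl

theorem norm_cj_apply (u : H ≃ₗᵢ[ℂ] H) (a : H →L[ℂ] H) (x : H) : ‖cj u a x‖ = ‖a (u.symm x)‖ := u.norm_map _

theorem norm_cj_le (u : H ≃ₗᵢ[ℂ] H) (a : H →L[ℂ] H) : ‖cj u a‖ ≤ ‖a‖ :=
  ContinuousLinearMap.opNorm_le_bound _ (norm_nonneg _) fun x => by
    rw [norm_cj_apply]
    exact (a.le_opNorm _).trans (by rw [LinearIsometryEquiv.norm_map])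

theorem cj_hom {S : Type} [Group S] (U : S →* (H ≃ₗᵢ[ℂ] H)) (s t : S) (a : H →L[ℂ] H) :
    cj (U (s * t)) a = cj (U s) (cj (U t) a) := by
  refine ContinuousLinearMap.ext fun x => ?_
  rw [cj_apply, cj_apply, cj_apply, map_mul]
  rfl

theorem cj_hom_one {S : Type} [Group S] (U : S →* (H ≃ₗᵢ[ℂ] H)) (a : H →L[ℂ] H) : cj (U 1) a = a := by
  refine ContinuousLinearMap.ext fun x => ?_
  rw [cj_apply, map_one]
  rfl

theorem cj_star [CompleteSpace H] (u : H ≃ₗᵢ[ℂ] H) (a : H →L[ℂ] H) : cj u (star a) = star (cj u a) :=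
  map_star u.conjStarAlgEquiv a

end CJ

variable {S1 S2 H : Type} [Group S1] [Group S2] [TopologicalSpace S2]
  [NormedAddCommGroup H] [InnerProductSpace ℂ H]

/-- `A = C(Ω)` with the actions of `S1` and `S2`. -/
structure GF (V : S1 →* (H ≃ₗᵢ[ℂ] H)) (W : S2 →* (H ≃ₗᵢ[ℂ] H)) (A : Set (H →L[ℂ] H)) (Ω : Type) [TopologicalSpace Ω] where
  /-- the representation -/
  θ : C(Ω, ℝ) → (H →L[ℂ] H)
  add : ∀ f g, θ (f + g) = θ f + θ g
  mul : ∀ f g, θ (f * g) = θ f * θ g
  smul : ∀ (r : ℝ) f, θ (r • f) = (r : ℂ) • θ f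
  one : θ 1 = 1
  mem : ∀ f, θ f ∈ A
  sa : ∀ f x y, (inner ℂ (θ f x) y : ℂ) = inner ℂ x (θ f y)
  /-- the action of `S1` -/
  a₁ : S1 → Ω → Ω
  /-- the action of `S2` -/
  a₂ : S2 → Ω → Ω
  one₁ : ∀ ω, a₁ 1 ω = ω
  mul₁ : ∀ s t ω, a₁ (s * t) ω = a₁ s (a₁ t ω)
  one₂ : ∀ ω, a₂ 1 ω = ω
  mul₂ : ∀ s t ω, a₂ (s * t) ω = a₂ s (a₂ t ω)
  comm : ∀ s h ω, a₁ s (a₂ h ω) = a₂ h (a₁ s ω)
  cont₁ : ∀ s, Continuous (a₁ s)
  cont₂ : Continuous fun p : S2 × Ω => a₂ p.1 p.2
  eV : ∀ s (f : C(Ω, ℝ)), cj (V s) (θ (f.comp ⟨a₁ s, cont₁ s⟩)) = θ f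
  eW : ∀ h (f : C(Ω, ℝ)), cj (W h) (θ (f.comp ⟨a₂ h, cont₂.comp (Continuous.prodMk continuous_const continuous_id)⟩)) = θ f
  surj : ∀ a ∈ A, (∀ x y, (inner ℂ (a x) y : ℂ) = inner ℂ x (a y)) → ∃ f, θ f = a

open WeakDual in
theorem exists_gf [IsTopologicalGroup S2] [CompleteSpace H] (V : S1 →* (H ≃ₗᵢ[ℂ] H)) (W : S2 →* (H ≃ₗᵢ[ℂ] H)) (VW : ∀ s h x, V s (W h x) = W h (V s x))
    (A : StarSubalgebra ℂ (H →L[ℂ] H)) (hA : IsClosed (A : Set (H →L[ℂ] H))) (hcomm : ∀ a ∈ A, ∀ b ∈ A, a * b = b * a)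
    (hV : ∀ a ∈ A, ∀ s, cj (V s) a ∈ A) (hW : ∀ a ∈ A, ∀ h, cj (W h) a ∈ A)
    (hc : ∀ a ∈ A, Continuous fun h => cj (W h) a) :
    ∃ (Ω : Type) (_ : TopologicalSpace Ω) (_ : CompactSpace Ω) (_ : T2Space Ω), Nonempty (GF V W (A : Set (H →L[ℂ] H)) Ω) := by
  let i1 : CStarAlgebra A := StarSubalgebra.cstarAlgebra A (h_closed := hA)
  let i2 : CommCStarAlgebra A := { i1 with mul_comm := fun a b => Subtype.ext (hcomm a a.2 b b.2) }
  -- the automorphisms
  set β : S1 → (A →⋆ₐ[ℂ] A) := fun s =>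
    { toFun := fun a => ⟨cj (V s) a, hV a a.2 s⟩
      map_one' := Subtype.ext (cj_one' _)
      map_mul' := fun a b => Subtype.ext (cj_mul' _ _ _)
      map_zero' := Subtype.ext (cj_zero' _)
      map_add' := fun a b => Subtype.ext (cj_add _ _ _)
      commutes' := fun r => Subtype.ext (by
        change cj (V s) ((algebraMap ℂ (H →L[ℂ] H)) r) = (algebraMap ℂ (H →L[ℂ] H)) r
        rw [Algebra.algebraMap_eq_smul_one, cj_smul', cj_one'])
      map_star' := fun a => Subtype.ext (cj_star _ _) } with hβ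
  set α : S2 → (A →⋆ₐ[ℂ] A) := fun h =>
    { toFun := fun a => ⟨cj (W h) a, hW a a.2 h⟩
      map_one' := Subtype.ext (cj_one' _)
      map_mul' := fun a b => Subtype.ext (cj_mul' _ _ _)
      map_zero' := Subtype.ext (cj_zero' _)
      map_add' := fun a b => Subtype.ext (cj_add _ _ _)
      commutes' := fun r => Subtype.ext (by
        change cj (W h) ((algebraMap ℂ (H →L[ℂ] H)) r) = (algebraMap ℂ (H →L[ℂ] H)) r
        rw [Algebra.algebraMap_eq_smul_one, cj_smul', cj_one'])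
      map_star' := fun a => Subtype.ext (cj_star _ _) } with hα
  have hβa : ∀ s (a : A), ((β s a : A) : H →L[ℂ] H) = cj (V s) a := fun s a => rfl
  have hαa : ∀ h (a : A), ((α h a : A) : H →L[ℂ] H) = cj (W h) a := fun h a => rfl
  have hβ1 : ∀ a, β 1 a = a := fun a => Subtype.ext (cj_hom_one V _)
  have hβm : ∀ s t a, β (s * t) a = β s (β t a) := fun s t a => Subtype.ext (cj_hom V s t _)
  have hα1 : ∀ a, α 1 a = a := fun a => Subtype.ext (cj_hom_one W _)
  have hαm : ∀ s t a, α (s * t) a = α s (α t a) := fun s t a => Subtype.ext (cj_hom W s t _)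
  have hαβ : ∀ s h a, β s (α h a) = α h (β s a) := fun s h a => Subtype.ext (by
    refine ContinuousLinearMap.ext fun x => ?_
    change V s (W h ((a : H →L[ℂ] H) ((W h).symm ((V s).symm x)))) = W h (V s ((a : H →L[ℂ] H) ((V s).symm ((W h).symm x))))
    rw [VW]
    have h1 : (W h).symm ((V s).symm x) = (V s).symm ((W h).symm x) := by
      have h2 : V s (W h ((V s).symm ((W h).symm x))) = x := by
        rw [VW, LinearIsometryEquiv.apply_symm_apply, LinearIsometryEquiv.apply_symm_apply]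
      conv_lhs => rw [← h2]
      rw [LinearIsometryEquiv.symm_apply_apply, LinearIsometryEquiv.symm_apply_apply]
    rw [h1])
  set Γ := gelfandStarTransform A with hΓ
  have hΓa : ∀ (a : A) (φ : characterSpace ℂ A), Γ a φ = φ a := fun a φ => rfl
  -- complexification of functions
  set toC : C(characterSpace ℂ A, ℝ) → C(characterSpace ℂ A, ℂ) := fun f => ⟨fun φ => (f φ : ℂ), Complex.continuous_ofReal.comp f.continuous⟩
    with htoC
  set a₁ : S1 → characterSpace ℂ A → characterSpace ℂ A := fun s => CharacterSpace.compContinuousMap (β s⁻¹) with ha₁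
  set a₂ : S2 → characterSpace ℂ A → characterSpace ℂ A := fun h => CharacterSpace.compContinuousMap (α h⁻¹) with ha₂
  have ha₁a : ∀ s φ (a : A), a₁ s φ a = φ (β s⁻¹ a) := fun s φ a => rfl
  have ha₂a : ∀ h φ (a : A), a₂ h φ a = φ (α h⁻¹ a) := fun h φ a => rfl
  refine ⟨characterSpace ℂ A, inferInstance, inferInstance, inferInstance, ⟨
    { θ := fun f => ((Γ.symm (toC f) : A) : H →L[ℂ] H)
      add := fun f g => ?_
      mul := fun f g => ?_
      smul := fun r f => ?_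
      one := ?_
      mem := fun f => (Γ.symm (toC f)).2
      sa := fun f x y => ?_
      a₁ := a₁
      a₂ := a₂
      one₁ := fun φ => ?_
      mul₁ := fun s t φ => ?_
      one₂ := fun φ => ?_
      mul₂ := fun s t φ => ?_
      comm := fun s h φ => ?_
      cont₁ := fun s => (CharacterSpace.compContinuousMap (β s⁻¹)).continuous
      cont₂ := ?_
      eV := fun s f => ?_
      eW := fun h f => ?_
      surj := fun a ha hs => ?_ }⟩⟩
  · have h1 : toC (f + g) = toC f + toC g := by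
      ext φ
      exact Complex.ofReal_add _ _
    rw [h1, map_add]
    rfl
  · have h1 : toC (f * g) = toC f * toC g := by
      ext φ
      exact Complex.ofReal_mul _ _
    rw [h1, map_mul]
    rfl
  · have h1 : toC (r • f) = (r : ℂ) • toC f := by
      ext φ
      exact Complex.ofReal_mul _ _
    rw [h1, map_smul]
    rfl
  · have h1 : toC 1 = 1 := by
      ext φ
      exact Complex.ofReal_one
    rw [h1, map_one]
    rfl
  · have h1 : star (toC f) = toC f := by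
      ext φ
      exact Complex.conj_ofReal _
    have h2 : star (Γ.symm (toC f)) = Γ.symm (toC f) := by rw [← map_star, h1]
    have h3 : star ((Γ.symm (toC f) : A) : H →L[ℂ] H) = ((Γ.symm (toC f) : A) : H →L[ℂ] H) := congrArg Subtype.val h2
    rw [ContinuousLinearMap.star_eq_adjoint] at h3
    conv_lhs => rw [← h3]
    rw [ContinuousLinearMap.adjoint_inner_left]
  · refine CharacterSpace.ext fun a => ?_
    rw [ha₁a, inv_one, hβ1]
  · refine CharacterSpace.ext fun a => ?_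
    rw [ha₁a, ha₁a, ha₁a, mul_inv_rev, hβm]
  · refine CharacterSpace.ext fun a => ?_
    rw [ha₂a, inv_one, hα1]
  · refine CharacterSpace.ext fun a => ?_
    rw [ha₂a, ha₂a, ha₂a, mul_inv_rev, hαm]
  · refine CharacterSpace.ext fun a => ?_
    rw [ha₁a, ha₂a, ha₂a, ha₁a, hαβ]
  · have hnorm : ∀ (φ : characterSpace ℂ A) (b : A), ‖φ b‖ ≤ ‖b‖ := fun φ b => by
      have h1 : ‖Γ b φ‖ ≤ ‖Γ b‖ := (Γ b).norm_coe_le_norm φ
      have h2 : ‖Γ b‖ = ‖b‖ := (gelfandTransform_isometry A).norm_map_of_map_zero (map_zero _) b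
      rw [h2] at h1
      exact h1
    have hkey : ∀ a : A, Continuous fun p : S2 × characterSpace ℂ A => p.2 (α p.1⁻¹ a) := by
      intro a
      rw [continuous_iff_continuousAt]
      rintro ⟨h₀, φ₀⟩
      have h1 : Continuous fun h : S2 => α h⁻¹ a := by
        refine Continuous.subtype_mk ?_ _
        exact (hc a a.2).comp continuous_inv
      have h2 : Tendsto (fun p : S2 × characterSpace ℂ A => p.2 (α p.1⁻¹ a - α h₀⁻¹ a)) (𝓝 (h₀, φ₀)) (𝓝 0) := by
        have h3 : Tendsto (fun p : S2 × characterSpace ℂ A => ‖α p.1⁻¹ a - α h₀⁻¹ a‖) (𝓝 (h₀, φ₀)) (𝓝 0) := by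
          have h4 : Continuous fun p : S2 × characterSpace ℂ A => ‖α p.1⁻¹ a - α h₀⁻¹ a‖ :=
            ((h1.comp continuous_fst).sub continuous_const).norm
          have h5 := h4.tendsto (h₀, φ₀)
          simp only [sub_self, norm_zero] at h5
          exact h5
        exact squeeze_zero_norm (fun p => hnorm _ _) h3
      have h3 : Continuous fun p : S2 × characterSpace ℂ A => p.2 (α h₀⁻¹ a) :=
        (map_continuous (gelfandTransform ℂ A (α h₀⁻¹ a))).comp continuous_snd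
      have h4 := h2.add (h3.tendsto (h₀, φ₀))
      rw [zero_add] at h4
      refine h4.congr fun p => ?_
      change p.2 (α p.1⁻¹ a - α h₀⁻¹ a) + p.2 (α h₀⁻¹ a) = p.2 (α p.1⁻¹ a)
      rw [map_sub, sub_add_cancel]
    exact Continuous.subtype_mk (continuous_of_continuous_eval fun a => hkey a) _
  · have h1 : β s (Γ.symm (toC (f.comp ⟨a₁ s, (CharacterSpace.compContinuousMap (β s⁻¹)).continuous⟩))) = Γ.symm (toC f) := by
      rw [StarAlgEquiv.eq_symm_apply]
      ext φ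
      have h2 : ∀ b : A, Γ (β s b) φ = Γ b (a₁ s⁻¹ φ) := fun b => by
        rw [hΓa, hΓa, ha₁a, inv_inv]
      rw [h2, StarAlgEquiv.apply_symm_apply]
      change ((f (a₁ s (a₁ s⁻¹ φ)) : ℝ) : ℂ) = (f φ : ℂ)
      have h3 : a₁ s (a₁ s⁻¹ φ) = φ := CharacterSpace.ext fun a => by
        rw [ha₁a, ha₁a, inv_inv, ← hβm, mul_inv_cancel, hβ1]
      rw [h3]
    exact congrArg Subtype.val h1
  · have h1 : α h (Γ.symm (toC (f.comp ⟨a₂ h, (CharacterSpace.compContinuousMap (α h⁻¹)).continuous⟩))) = Γ.symm (toC f) := by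
      rw [StarAlgEquiv.eq_symm_apply]
      ext φ
      have h2 : ∀ b : A, Γ (α h b) φ = Γ b (a₂ h⁻¹ φ) := fun b => by
        rw [hΓa, hΓa, ha₂a, inv_inv]
      rw [h2, StarAlgEquiv.apply_symm_apply]
      change ((f (a₂ h (a₂ h⁻¹ φ)) : ℝ) : ℂ) = (f φ : ℂ)
      have h3 : a₂ h (a₂ h⁻¹ φ) = φ := CharacterSpace.ext fun a => by
        rw [ha₂a, ha₂a, inv_inv, ← hαm, mul_inv_cancel, hα1]
      rw [h3]
    exact congrArg Subtype.val h1
  · refine ⟨⟨fun φ => (Γ ⟨a, ha⟩ φ).re, Complex.continuous_re.comp (Γ ⟨a, ha⟩).continuous⟩, ?_⟩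
    have h1 : star (⟨a, ha⟩ : A) = ⟨a, ha⟩ := Subtype.ext (by
      change star a = a
      rw [ContinuousLinearMap.star_eq_adjoint]
      refine ContinuousLinearMap.ext fun x => ext_inner_right ℂ fun y => ?_
      rw [ContinuousLinearMap.adjoint_inner_left, hs])
    have h2 : toC ⟨fun φ => (Γ ⟨a, ha⟩ φ).re, Complex.continuous_re.comp (Γ ⟨a, ha⟩).continuous⟩ = Γ ⟨a, ha⟩ := by
      ext φ
      have h3 : star (Γ ⟨a, ha⟩) = Γ ⟨a, ha⟩ := by rw [← map_star, h1]
      have h4 : (starRingEnd ℂ) (Γ ⟨a, ha⟩ φ) = Γ ⟨a, ha⟩ φ := congrArg (fun F : C(characterSpace ℂ A, ℂ) => F φ) h3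
      exact Complex.conj_eq_iff_re.1 h4
    change ((Γ.symm (toC _) : A) : H →L[ℂ] H) = a
    rw [h2, StarAlgEquiv.symm_apply_apply]

end Pool.Agent.Helper96.TZ
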