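import Pool.Agent.Helper96.TZ.Proj

/-!
# Project TZ (MP_0f6f3f_an): the dimension lemma

`ZD`: the commutative von Neumann algebra `Z` = commutant of `T`, unitary representations `V` of `S₁` and `W` of `S₂` which commute and normalise `Z`.
`LL D l`: the selfadjoint contractions of `Z` which are Lipschitz for the action of `S₂`. `small`: small sets.
-/

set_option autoImplicit false

open Filter Topology

namespace Pool.Agent.Helper96.TZ

section CJ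

variable {S H : Type*} [Group S] [NormedAddCommGroup H] [InnerProductSpace ℂ H]

/-- Conjugation with `U s`. -/
noncomputable def cj (U : S →* (H ≃ₗᵢ[ℂ] H)) (s : S) (a : H →L[ℂ] H) : H →L[ℂ] H :=
  ((U s).toContinuousLinearEquiv : H →L[ℂ] H).comp (a.comp ((U s⁻¹).toContinuousLinearEquiv : H →L[ℂ] H))

variable (U : S →* (H ≃ₗᵢ[ℂ] H))

theorem cj_apply (s : S) (a : H →L[ℂ] H) (x : H) : cj U s a x = U s (a (U s⁻¹ x)) := rfl

theorem U_inv (s : S) (x : H) : U s (U s⁻¹ x) = x := by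
  have h : (U s * U s⁻¹) x = x := by rw [← map_mul, mul_inv_cancel, map_one]; rfl
  exact h

theorem U_inv' (s : S) (x : H) : U s⁻¹ (U s x) = x := by
  have h : (U s⁻¹ * U s) x = x := by rw [← map_mul, inv_mul_cancel, map_one]; rfl
  exact h

theorem U_mul (s t : S) (x : H) : U (s * t) x = U s (U t x) := by rw [map_mul]; rfl

theorem cj_cj (s : S) (a b : H →L[ℂ] H) (x : H) : cj U s a (cj U s b x) = U s (a (b (U s⁻¹ x))) := by
  rw [cj_apply U s a, cj_apply U s b, U_inv' U]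

theorem cj_mul (s t : S) (a : H →L[ℂ] H) : cj U (s * t) a = cj U s (cj U t a) := by
  refine ContinuousLinearMap.ext fun x => ?_
  rw [cj_apply, cj_apply, cj_apply, mul_inv_rev, U_mul, U_mul]

theorem cj_one (a : H →L[ℂ] H) : cj U 1 a = a := by
  refine ContinuousLinearMap.ext fun x => ?_
  rw [cj_apply, inv_one, map_one]
  rfl

theorem cj_sub (s : S) (a b : H →L[ℂ] H) : cj U s (a - b) = cj U s a - cj U s b := by
  refine ContinuousLinearMap.ext fun x => ?_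
  rw [_root_.sub_apply, cj_apply, cj_apply, cj_apply, _root_.sub_apply, map_sub]

theorem cj_smul (s : S) (c : ℂ) (a : H →L[ℂ] H) : cj U s (c • a) = c • cj U s a := by
  refine ContinuousLinearMap.ext fun x => ?_
  change U s (c • a (U s⁻¹ x)) = c • U s (a (U s⁻¹ x))
  rw [map_smul]

theorem inner_U (s : S) (x y : H) : (inner ℂ (U s x) y : ℂ) = inner ℂ x (U s⁻¹ y) := by
  conv_lhs => rw [← U_inv U s y]
  exact (U s).inner_map_map x _

theorem SA.cj {a : H →L[ℂ] H} (ha : SA a) (s : S) : SA (TZ.cj U s a) := fun x y => by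
  rw [cj_apply, cj_apply, inner_U, ha]
  conv_rhs => rw [← U_inv U s x]
  exact ((U s).inner_map_map _ _).symm

theorem norm_cj (s : S) (a : H →L[ℂ] H) (x : H) : ‖cj U s a x‖ = ‖a (U s⁻¹ x)‖ := by
  rw [cj_apply]
  exact (U s).norm_map _

theorem PZ.cj {T : Set (H →L[ℂ] H)} {e : H →L[ℂ] H} (he : PZ T e) (s : S) (h : CZ T (TZ.cj U s e)) : PZ T (TZ.cj U s e) :=
  ⟨h, he.sa.cj U s, fun x => by rw [cj_apply, cj_apply, U_inv' U, he.idem]⟩

theorem cj_ne {a : H →L[ℂ] H} (s : S) (ha : a ≠ 0) : cj U s a ≠ 0 := by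
  intro h
  refine ha (ContinuousLinearMap.ext fun x => ?_)
  have h1 : cj U s a (U s x) = 0 := by rw [h]; rfl
  rw [cj_apply, U_inv' U] at h1
  exact (map_eq_zero_iff _ (U s).injective).1 h1

end CJ

/-- The data: `Z` is the commutant of `T`. -/
structure ZD (S₁ S₂ H : Type*) [Group S₁] [Group S₂] [TopologicalSpace S₁] [NormedAddCommGroup H]
    [InnerProductSpace ℂ H] [CompleteSpace H] where
  /-- generators of the commutant of `Z` -/
  T : Set (H →L[ℂ] H)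
  star : ∀ t ∈ T, ContinuousLinearMap.adjoint t ∈ T
  comm : ∀ a b : H →L[ℂ] H, CZ T a → CZ T b → ∀ x, a (b x) = b (a x)
  /-- the representation of `S₁` -/
  V : S₁ →* (H ≃ₗᵢ[ℂ] H)
  /-- the representation of `S₂` -/
  W : S₂ →* (H ≃ₗᵢ[ℂ] H)
  Vc : ∀ x, Continuous fun s => V s x
  VW : ∀ s h x, V s (W h x) = W h (V s x)
  VZ : ∀ s a, CZ T a → CZ T (cj V s a)
  WZ : ∀ h a, CZ T a → CZ T (cj W h a)

variable {S₁ S₂ H : Type*} [Group S₁] [Group S₂] [TopologicalSpace S₁] [NormedAddCommGroup H]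
  [InnerProductSpace ℂ H] [CompleteSpace H]

/-- The selfadjoint Lipschitz contractions of `Z`. -/
structure LL (D : ZD S₁ S₂ H) (l : S₂ → ℝ) (z : H →L[ℂ] H) : Prop where
  mem : CZ D.T z
  sa : SA z
  nb : ∀ x, ‖z x‖ ≤ ‖x‖
  lip : ∀ h x, ‖cj D.W h z x - z x‖ ≤ l h * ‖x‖

variable {D : ZD S₁ S₂ H} {l : S₂ → ℝ} {z : H →L[ℂ] H}

theorem cj_comm (D : ZD S₁ S₂ H) (s : S₁) (h : S₂) (a : H →L[ℂ] H) : cj D.W h (cj D.V s a) = cj D.V s (cj D.W h a) := by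
  refine ContinuousLinearMap.ext fun x => ?_
  rw [cj_apply, cj_apply, cj_apply, cj_apply, D.VW, D.VW]

theorem LL.cjV (hz : LL D l z) (s : S₁) : LL D l (cj D.V s z) :=
  ⟨D.VZ s z hz.mem, hz.sa.cj _ s, fun x => by
    rw [norm_cj]
    exact (hz.nb _).trans ((D.V s⁻¹).norm_map x).le, fun h x => by
    rw [cj_comm, cj_apply D.V s (cj D.W h z), cj_apply D.V s z, ← map_sub, (D.V s).norm_map]
    exact (hz.lip h _).trans (by rw [(D.V s⁻¹).norm_map])⟩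

theorem LL.cjW (hz : LL D l z) (g : S₂) {C : ℝ} (hC : 1 ≤ C) (hg : ∀ h, l (g⁻¹ * h * g) ≤ C * l h) :
    LL D l (((C⁻¹ : ℝ) : ℂ) • cj D.W g z) := by
  have hC0 : 0 < C := by linarith
  have hn : ∀ x : H, ‖((C⁻¹ : ℝ) : ℂ) • x‖ = C⁻¹ * ‖x‖ := fun x => by
    rw [norm_smul, Complex.norm_real, Real.norm_of_nonneg (inv_nonneg.2 hC0.le)]
  refine ⟨CZ.smul _ (D.WZ g z hz.mem), (hz.sa.cj _ g).smul _, fun x => ?_, fun h x => ?_⟩
  · change ‖((C⁻¹ : ℝ) : ℂ) • cj D.W g z x‖ ≤ _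
    rw [hn, norm_cj]
    have h1 := (hz.nb (D.W g⁻¹ x)).trans ((D.W g⁻¹).norm_map x).le
    calc C⁻¹ * ‖z (D.W g⁻¹ x)‖ ≤ 1 * ‖x‖ := by
          gcongr
          exact inv_le_one_of_one_le₀ hC
      _ = ‖x‖ := one_mul _
  · rw [cj_smul]
    change ‖((C⁻¹ : ℝ) : ℂ) • cj D.W h (cj D.W g z) x - ((C⁻¹ : ℝ) : ℂ) • cj D.W g z x‖ ≤ _
    rw [← smul_sub, hn]
    have h2 : cj D.W h (cj D.W g z) = cj D.W g (cj D.W (g⁻¹ * h * g) z) := by
      rw [← cj_mul, ← cj_mul]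
      congr 1
      group
    rw [h2, cj_apply D.W g (cj D.W (g⁻¹ * h * g) z), cj_apply D.W g z, ← map_sub, (D.W g).norm_map]
    have h3 := hz.lip (g⁻¹ * h * g) (D.W g⁻¹ x)
    rw [(D.W g⁻¹).norm_map] at h3
    calc C⁻¹ * ‖cj D.W (g⁻¹ * h * g) z (D.W g⁻¹ x) - z (D.W g⁻¹ x)‖ ≤ C⁻¹ * (C * l h * ‖x‖) := by
          gcongr
          exact h3.trans (mul_le_mul_of_nonneg_right (hg h) (norm_nonneg _))
      _ = l h * ‖x‖ := by field_simp

/-- Small sets. -/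
theorem small (D : ZD S₁ S₂ H) {l : S₂ → ℝ} {ζ : H} (hζ : ‖ζ‖ = 1) {e₀ : H →L[ℂ] H} (he₀ : PZ D.T e₀) (h₀ : e₀ ≠ 0)
    {B : Set S₂}
    (st : ∀ e f, PZ D.T e → PZ D.T f → e ≠ 0 → (∀ x, e₀ (e x) = e x) → (∀ g ∈ B, ∀ x, cj D.W g e (f x) = 0) →
      ‖f ζ‖ ^ 2 ≤ 1 / 2)
    (comp : ∀ (F : Finset H) (ε : ℝ), 0 < ε → ∃ L₀ : Finset (H →L[ℂ] H), (∀ z ∈ L₀, LL D l z) ∧
      ∀ z, LL D l z → ∃ z' ∈ L₀, ∀ x ∈ F, ‖z x - z' x‖ ≤ ε)
    {δ : ℝ} (hδ : 0 < δ) (P : Finset S₂) (hP : ∀ g ∈ B, ∃ k ∈ P, l (k⁻¹ * g) ≤ δ / 4) :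
    ∃ e, PZ D.T e ∧ e ≠ 0 ∧ (∀ x, e₀ (e x) = e x) ∧
      ∀ z, LL D l z → ∃ c : ℝ, ∀ x, ‖z (e x) - (c : ℂ) • e x‖ ≤ 3 * δ * ‖e x‖ := by
  classical
  have hT := D.star
  have hcomm := D.comm
  -- the net of `L`
  set M : ℝ := (P.card : ℝ) with hM
  have hM0 : 0 ≤ M := Nat.cast_nonneg _
  set ε : ℝ := δ / (2 * (M + 1)) with hε
  have hε0 : 0 < ε := by positivity
  obtain ⟨L₀, hL₀, hnet⟩ := comp (P.image fun k => D.W k⁻¹ ζ) ε hε0
  -- a projection where the elements of the net are almost constant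
  have h1 : ∀ L₁ : Finset (H →L[ℂ] H), L₁ ⊆ L₀ → ∃ e, PZ D.T e ∧ e ≠ 0 ∧ (∀ x, e₀ (e x) = e x) ∧
      ∀ z ∈ L₁, ∃ c : ℝ, ∀ x, ‖z (e x) - (c : ℂ) • e x‖ ≤ δ * ‖e x‖ := by
    intro L₁
    induction L₁ using Finset.induction_on with
    | empty => exact fun _ => ⟨e₀, he₀, h₀, he₀.idem, by simp⟩
    | insert z L₁ _ ih =>
      intro hsub
      obtain ⟨e, he, k1, k2, k3⟩ := ih ((Finset.subset_insert _ _).trans hsub)
      have hz := hL₀ z (hsub (Finset.mem_insert_self _ _))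
      obtain ⟨e', he', k4, k5, c, k6⟩ := exists_const hT hcomm hz.mem hz.sa hz.nb he k1 hδ
      refine ⟨e', he', k4, fun x => ?_, fun w hw => ?_⟩
      · rw [← k5, k2]
      · rcases Finset.mem_insert.1 hw with rfl | hw
        · exact ⟨c, k6⟩
        · obtain ⟨c', k7⟩ := k3 w hw
          exact ⟨c', fun x => by rw [← k5]; exact k7 _⟩
  obtain ⟨e, he, k1, k2, k3⟩ := h1 L₀ subset_rfl
  refine ⟨e, he, k1, k2, fun z hz => ?_⟩
  obtain ⟨z', hz', k4⟩ := hnet z hz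
  have hz'L := hL₀ z' hz'
  obtain ⟨c, k5⟩ := k3 z' hz'
  refine ⟨c, ?_⟩
  set A : H →L[ℂ] H := z - z' with hA
  have hAz : CZ D.T A := hz.mem.sub hz'L.mem
  have hAs : SA A := hz.sa.sub hz'L.sa
  have hAl : ∀ h x, ‖cj D.W h A x - A x‖ ≤ 2 * l h * ‖x‖ := by
    intro h x
    rw [hA, cj_sub, _root_.sub_apply, _root_.sub_apply]
    have e1 : cj D.W h z x - cj D.W h z' x - (z x - z' x) = (cj D.W h z x - z x) - (cj D.W h z' x - z' x) := by abel
    rw [e1]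
    refine (norm_sub_le _ _).trans ?_
    linarith [hz.lip h x, hz'L.lip h x]
  suffices h2 : ∀ x, ‖A (e x)‖ ≤ 2 * δ * ‖e x‖ by
    intro x
    have e1 : z (e x) - (c : ℂ) • e x = A (e x) + (z' (e x) - (c : ℂ) • e x) := by
      rw [hA, _root_.sub_apply]; abel
    rw [e1]
    refine (norm_add_le _ _).trans ?_
    linarith [h2 x, k5 x]
  obtain ⟨p, hp, q1, q2⟩ := spec_norm hT hAz hAs (show (0 : ℝ) ≤ 2 * δ by positivity)
  by_cases h3 : (1 - p) * e = 0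
  · intro x
    have h4 : e x - p (e x) = 0 := congrArg (fun A : H →L[ℂ] H => A x) h3
    rw [sub_eq_zero.1 h4]
    exact q1 (e x)
  exfalso
  set e₁ : H →L[ℂ] H := (1 - p) * e with he₁
  have hpe : ∀ x, (1 - p) (e x) = e ((1 - p) x) := hcomm _ _ hp.compl.mem he.mem
  have he₁P : PZ D.T e₁ := hp.compl.mul he hpe
  have he₁p : ∀ x, p (e₁ x) = 0 := fun x => by
    change p (e x - p (e x)) = 0
    rw [map_sub, hp.idem, sub_self]
  have he₁e : ∀ x, e₀ (e₁ x) = e₁ x := fun x => by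
    have h4 : e₁ x = e ((1 - p) x) := hpe x
    rw [h4, k2]
  obtain ⟨p₂, hp₂, r1, r2⟩ := spec_norm hT hAz hAs hδ.le
  -- `p₂` and the small translates of `e₁` are orthogonal
  have h5 : ∀ h, l h ≤ δ / 4 → ∀ x, cj D.W h e₁ (p₂ x) = 0 := by
    intro h hh x
    set y := cj D.W h e₁ (p₂ x) with hy
    have s1 : y = p₂ (cj D.W h e₁ x) := hcomm _ _ (D.WZ h _ he₁P.mem) hp₂.mem x
    have s2 : ‖A y‖ ≤ δ * ‖y‖ := by
      rw [s1]
      exact r1 _
    have s3 : ‖cj D.W h A y‖ ≤ ‖A y‖ + 2 * l h * ‖y‖ := by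
      have e1 : cj D.W h A y = A y + (cj D.W h A y - A y) := by abel
      rw [e1]
      exact (norm_add_le _ _).trans (add_le_add le_rfl (hAl h y))
    set w := D.W h⁻¹ (p₂ x)
    have s4 : D.W h⁻¹ y = e₁ w := by
      rw [hy, cj_apply, U_inv']
    have s5 : ‖y‖ = ‖e₁ w‖ := by rw [← s4, (D.W h⁻¹).norm_map]
    rw [norm_cj, s4] at s3
    have s6 := q2 (e₁ w) (he₁p w)
    rw [← s5] at s6
    have s7 : ‖y‖ * (δ / 2) ≤ 0 := by
      have : 2 * l h * ‖y‖ ≤ 2 * (δ / 4) * ‖y‖ := by gcongr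
      nlinarith
    have s8 : ‖y‖ ≤ 0 := by
      by_contra hcon
      push Not at hcon
      nlinarith [mul_pos hcon (half_pos hδ)]
    exact norm_le_zero_iff.1 s8
  -- the complement of the translates
  obtain ⟨f, hf, t1, t2⟩ := cover hcomm P (fun k => 1 - cj D.W k p₂) fun k _ => (hp₂.cj _ k (D.WZ k _ hp₂.mem)).compl
  have t3 : ‖f ζ‖ ^ 2 ≤ 1 / 2 := by
    refine st e₁ f he₁P hf h3 he₁e fun g hg x => ?_
    obtain ⟨k, hk, hkl⟩ := hP g hg
    have u1 : f x = cj D.W k p₂ (f x) := by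
      have := t1 k hk x
      change f x - cj D.W k p₂ (f x) = 0 at this
      exact sub_eq_zero.1 this
    rw [u1]
    have u2 : g = k * (k⁻¹ * g) := by group
    have u3 : cj D.W g e₁ = cj D.W k (cj D.W (k⁻¹ * g) e₁) := by
      conv_lhs => rw [u2]
      rw [cj_mul]
    rw [u3, cj_cj, h5 _ hkl, map_zero]
  have t4 := t2 ζ
  rw [hζ] at t4
  have t5 : ∀ k ∈ P, ‖(1 - cj D.W k p₂) ζ‖ ^ 2 ≤ (ε / δ) ^ 2 := by
    intro k hk
    refine pow_le_pow_left₀ (norm_nonneg _) ?_ 2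
    set w := D.W k⁻¹ ζ with hw
    have u1 : (1 - cj D.W k p₂) ζ = D.W k (w - p₂ w) := by
      change ζ - cj D.W k p₂ ζ = _
      rw [cj_apply, map_sub, hw, U_inv]
    rw [u1, (D.W k).norm_map, le_div_iff₀ hδ, mul_comm]
    have u2 := r2 (w - p₂ w) (by rw [map_sub, hp₂.idem, sub_self])
    refine u2.trans ?_
    have u3 : A (w - p₂ w) = A w - p₂ (A w) := by rw [map_sub, hcomm _ _ hAz hp₂.mem]
    have u4 : ‖A w - p₂ (A w)‖ ≤ ‖A w‖ := hp₂.compl.le (A w)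
    rw [u3]
    refine u4.trans ?_
    exact k4 w (Finset.mem_image_of_mem _ hk)
  have t6 : ∑ k ∈ P, ‖(1 - cj D.W k p₂) ζ‖ ^ 2 ≤ M * (ε / δ) ^ 2 := by
    refine (Finset.sum_le_sum t5).trans ?_
    rw [Finset.sum_const, nsmul_eq_mul]
  have t7 : ε / δ = 1 / (2 * (M + 1)) := by
    rw [hε]
    field_simp
  have t8 : M * (ε / δ) ^ 2 < 1 / 2 := by
    rw [t7]
    have : M * (1 / (2 * (M + 1))) ^ 2 = M / (4 * (M + 1) ^ 2) := by field_simp; ring
    rw [this, div_lt_iff₀ (by positivity)]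
    nlinarith
  linarith

end Pool.Agent.Helper96.TZ
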