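import Mathlib

/-!
# Project TZ (MP_0f6f3f_an): topological dynamics for the dimension lemma

Functionals on `C(Ω, ℝ)`, `Ω` compact. `exists_point`: partition of unity. `st_point`: strong transitivity at a point. `meet`: Urysohn.
-/

set_option autoImplicit false

open Filter Topology

namespace Pool.Agent.Helper96.TZ

section Fun

variable {Ω : Type*} [TopologicalSpace Ω] [CompactSpace Ω] [T2Space Ω]

theorem exists_point (μ ν : C(Ω, ℝ) →ₗ[ℝ] ℝ) (hlt : ν 1 < μ 1) :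
    ∃ ω₀ : Ω, ∀ U ∈ 𝓝 ω₀, ∃ e : C(Ω, ℝ), 0 ≤ e ∧ e ≤ 1 ∧ (∀ ω, ω ∉ U → e ω = 0) ∧ ν e < μ e := by
  by_contra hcon
  push Not at hcon
  choose U hU hU2 using hcon
  obtain ⟨t, -, ht⟩ := (isCompact_univ : IsCompact (Set.univ : Set Ω)).elim_nhds_subcover (fun ω => interior (U ω))
    (fun ω _ => interior_mem_nhds.2 (hU ω))
  set E := t.equivFin
  obtain ⟨f, h1, h2, h3, -⟩ := exists_continuous_sum_one_of_isOpen_isCompact
    (s := fun i : Fin t.card => interior (U (E.symm i : Ω))) (t := (Set.univ : Set Ω)) (fun i => isOpen_interior) isCompact_univ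
    (by
      intro ω hω
      obtain ⟨x, hx, hx2⟩ := Set.mem_iUnion₂.1 (ht hω)
      refine Set.mem_iUnion.2 ⟨E ⟨x, hx⟩, ?_⟩
      rwa [Equiv.symm_apply_apply])
  have h4 : (1 : C(Ω, ℝ)) = ∑ i, f i := by
    ext ω
    have := h2 (Set.mem_univ ω)
    rw [ContinuousMap.coe_sum]
    exact this.symm
  have h5 : ∀ i, μ (f i) ≤ ν (f i) := by
    intro i
    refine hU2 (E.symm i : Ω) (f i) (fun ω => (h3 i ω).1) (fun ω => (h3 i ω).2) fun ω hω => ?_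
    by_contra h6
    exact hω (interior_subset (h1 i (subset_tsupport _ h6)))
  rw [h4, map_sum, map_sum] at hlt
  exact absurd hlt (not_lt.2 (Finset.sum_le_sum fun i _ => h5 i))

/-- Strong transitivity at a point. -/
theorem st_point {S ι : Type*} [TopologicalSpace S] [Fintype ι] (act : S → Ω → Ω)
    (hact : Continuous fun p : S × Ω => act p.1 p.2)
    (μ : C(Ω, ℝ) →ₗ[ℝ] ℝ) (ν m : ι → C(Ω, ℝ) →ₗ[ℝ] ℝ) (hν : ∀ i f, 0 ≤ f → 0 ≤ ν i f) {ε : ℝ} (hε : 0 < ε)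
    (B : Set S) (hB : IsCompact B) (h1 : ∑ i, ν i 1 < ε * μ 1)
    (H : ∀ i (e f : C(Ω, ℝ)) (c : ℝ), 0 ≤ e → 0 ≤ f → 0 ≤ c → (∀ h ∈ B, ∀ ω, e ω ≠ 0 → f (act h ω) ≤ c) →
      μ e * m i f ≤ c * μ e + ‖f‖ * ν i e) :
    ∃ ω₀ : Ω, ∀ i (f : C(Ω, ℝ)) (c : ℝ), 0 ≤ f → 0 ≤ c → (∀ h ∈ B, f (act h ω₀) ≤ c) → m i f ≤ c + ε * ‖f‖ := by
  obtain ⟨ω₀, hω⟩ := exists_point μ (ε⁻¹ • ∑ i, ν i) (by
    rw [LinearMap.smul_apply, LinearMap.sum_apply, smul_eq_mul, inv_mul_lt_iff₀ hε]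
    exact h1)
  refine ⟨ω₀, fun i f c hf hc0 hc => le_of_forall_pos_le_add fun τ hτ => ?_⟩
  have h2 : ∀ᶠ ω in 𝓝 ω₀, ∀ h ∈ B, f (act h ω) < c + τ := by
    refine hB.eventually_forall_of_forall_eventually fun h hh => ?_
    have h3 : Continuous fun p : Ω × S => f (act p.2 p.1) := f.continuous.comp (hact.comp continuous_swap)
    exact h3.continuousAt.eventually_lt continuousAt_const (by
      have := hc h hh
      change f (act h ω₀) < c + τ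
      linarith)
  obtain ⟨e, he0, he1, heU, hlt⟩ := hω _ h2
  rw [LinearMap.smul_apply, LinearMap.sum_apply, smul_eq_mul, inv_mul_lt_iff₀ hε] at hlt
  have h4 : ν i e ≤ ε * μ e := by
    refine le_trans ?_ hlt.le
    exact Finset.single_le_sum (f := fun i => ν i e) (fun j _ => hν j e he0) (Finset.mem_univ i)
  have h5 : 0 < μ e := by
    have h6 : 0 ≤ ∑ i, ν i e := Finset.sum_nonneg fun j _ => hν j e he0
    by_contra h7
    push Not at h7
    nlinarith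
  have h6 := H i e f (c + τ) he0 hf (by linarith) fun h hh ω hne => by
    by_contra h7
    push Not at h7
    refine hne (heU ω fun h8 => ?_)
    exact absurd (h8 h hh) (not_lt.2 h7.le)
  have h7 : μ e * m i f ≤ μ e * (c + ε * ‖f‖ + τ) := by
    have : ‖f‖ * ν i e ≤ ‖f‖ * (ε * μ e) := mul_le_mul_of_nonneg_left h4 (norm_nonneg _)
    nlinarith
  exact le_of_mul_le_mul_left h7 h5

/-- Two closed sets which carry most of the mass meet. -/
theorem meet (m : C(Ω, ℝ) →ₗ[ℝ] ℝ) (h1 : m 1 = 1) {K₁ K₂ : Set Ω} (hK₁ : IsClosed K₁) (hK₂ : IsClosed K₂)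
    (m1 : ∀ f : C(Ω, ℝ), 0 ≤ f → f ≤ 1 → (∀ ω ∈ K₁, f ω = 0) → m f ≤ 1 / 4)
    (m2 : ∀ f : C(Ω, ℝ), 0 ≤ f → f ≤ 1 → (∀ ω ∈ K₂, f ω = 0) → m f ≤ 1 / 4) : ∃ ω, ω ∈ K₁ ∧ ω ∈ K₂ := by
  by_contra hcon
  push Not at hcon
  obtain ⟨f, f1, f2, f3⟩ := exists_continuous_zero_one_of_isClosed hK₁ hK₂ (Set.disjoint_left.2 hcon)
  have h2 := m1 f (fun ω => (f3 ω).1) (fun ω => (f3 ω).2) fun ω hω => f1 hω
  have h3 := m2 (1 - f) (fun ω => by
    change (0 : ℝ) ≤ 1 - f ω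
    linarith [(f3 ω).2]) (fun ω => by
    change (1 : ℝ) - f ω ≤ 1
    linarith [(f3 ω).1]) fun ω hω => by
    have := f2 hω
    change (1 : ℝ) - f ω = 0
    rw [this]
    simp
  rw [map_sub, h1] at h3
  linarith

end Fun

end Pool.Agent.Helper96.TZ
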