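import Pool.Agent.Helper96.TZ.Char

/-!
# Project TZ (MP_0f6f3f_an): positivity for `GF`
-/

set_option autoImplicit false

open Filter Topology

namespace Pool.Agent.Helper96.TZ

open Pool.Agent.Helper43.TZ (cj cj_apply)

variable {S1 S2 H : Type} [Group S1] [Group S2] [TopologicalSpace S2]
  [NormedAddCommGroup H] [InnerProductSpace ℂ H]
  {V : S1 →* (H ≃ₗᵢ[ℂ] H)} {W : S2 →* (H ≃ₗᵢ[ℂ] H)} {A : Set (H →L[ℂ] H)} {Ω : Type} [TopologicalSpace Ω]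

/-- The square root of a function. -/
noncomputable def rt (f : C(Ω, ℝ)) : C(Ω, ℝ) := ⟨fun ω => Real.sqrt (f ω), Real.continuous_sqrt.comp f.continuous⟩

theorem rt_mul {f : C(Ω, ℝ)} (hf : 0 ≤ f) : rt f * rt f = f := by
  ext ω
  exact Real.mul_self_sqrt (hf ω)

theorem ips' (x : H) : (inner ℂ x x : ℂ).re = ‖x‖ ^ 2 := by
  rw [inner_self_eq_norm_sq_to_K]
  norm_cast

theorem GF.inner_mul_self (G : GF V W A Ω) (g : C(Ω, ℝ)) (x : H) : (inner ℂ (G.θ (g * g) x) x : ℂ).re = ‖G.θ g x‖ ^ 2 := by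
  rw [G.mul]
  change (inner ℂ (G.θ g (G.θ g x)) x : ℂ).re = _
  rw [G.sa, ips']

theorem GF.norm_rt (G : GF V W A Ω) {f : C(Ω, ℝ)} (hf : 0 ≤ f) (x : H) : ‖G.θ (rt f) x‖ ^ 2 = (inner ℂ (G.θ f x) x : ℂ).re := by
  rw [← G.inner_mul_self, rt_mul hf]

theorem GF.nonneg (G : GF V W A Ω) {f : C(Ω, ℝ)} (hf : 0 ≤ f) (x : H) : 0 ≤ (inner ℂ (G.θ f x) x : ℂ).re := by
  rw [← G.norm_rt hf]
  positivity

theorem GF.neg (G : GF V W A Ω) (f : C(Ω, ℝ)) : G.θ (-f) = -G.θ f := by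
  have h := G.smul (-1) f
  rw [neg_one_smul] at h
  rw [h]
  simp

theorem GF.sub (G : GF V W A Ω) (f g : C(Ω, ℝ)) : G.θ (f - g) = G.θ f - G.θ g := by
  rw [sub_eq_add_neg, G.add, G.neg, sub_eq_add_neg]

theorem GF.mono (G : GF V W A Ω) {f g : C(Ω, ℝ)} (h : f ≤ g) (x : H) :
    (inner ℂ (G.θ f x) x : ℂ).re ≤ (inner ℂ (G.θ g x) x : ℂ).re := by
  have h1 := G.nonneg (f := g - f) (sub_nonneg.2 h) x
  rw [G.sub, _root_.sub_apply, inner_sub_left, Complex.sub_re] at h1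
  linarith

theorem GF.re_smul (G : GF V W A Ω) (c : ℝ) (f : C(Ω, ℝ)) (x y : H) :
    (inner ℂ (G.θ (c • f) x) y : ℂ).re = c * (inner ℂ (G.θ f x) y : ℂ).re := by
  rw [G.smul]
  change (inner ℂ ((c : ℂ) • G.θ f x) y : ℂ).re = _
  rw [inner_smul_left, Complex.conj_ofReal, Complex.re_ofReal_mul]

/-- The functional of a vector. -/
noncomputable def GF.fn (G : GF V W A Ω) (x : H) : C(Ω, ℝ) →ₗ[ℝ] ℝ where
  toFun f := (inner ℂ (G.θ f x) x : ℂ).re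
  map_add' f g := by
    rw [G.add, _root_.add_apply, inner_add_left, Complex.add_re]
  map_smul' c f := G.re_smul c f x x

theorem GF.fn_apply (G : GF V W A Ω) (x : H) (f : C(Ω, ℝ)) : G.fn x f = (inner ℂ (G.θ f x) x : ℂ).re := rfl

theorem GF.one_apply (G : GF V W A Ω) (x : H) : G.θ 1 x = x := by rw [G.one]; rfl

variable [CompactSpace Ω]

theorem GF.norm_le (G : GF V W A Ω) (f : C(Ω, ℝ)) (x : H) : ‖G.θ f x‖ ≤ ‖f‖ * ‖x‖ := by
  have h1 : f * f ≤ (‖f‖ ^ 2) • (1 : C(Ω, ℝ)) := fun ω => by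
    change f ω * f ω ≤ ‖f‖ ^ 2 * 1
    have h2 := f.norm_coe_le_norm ω
    rw [Real.norm_eq_abs] at h2
    nlinarith [abs_nonneg (f ω), abs_mul_abs_self (f ω)]
  have h2 := G.mono h1 x
  rw [G.inner_mul_self, G.re_smul, G.one_apply, ips'] at h2
  have h3 : ‖G.θ f x‖ ^ 2 ≤ (‖f‖ * ‖x‖) ^ 2 := by rw [mul_pow]; exact h2
  exact abs_le_of_sq_le_sq' h3 (by positivity) |>.2

theorem GF.inner_close (G : GF V W A Ω) (f : C(Ω, ℝ)) (x y : H) (hx : ‖x‖ ≤ 1) (hy : ‖y‖ ≤ 1) :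
    (inner ℂ (G.θ f x) x : ℂ).re ≤ (inner ℂ (G.θ f y) y : ℂ).re + 2 * ‖f‖ * ‖x - y‖ := by
  have h1 : (inner ℂ (G.θ f x) x : ℂ) = inner ℂ (G.θ f y) y + inner ℂ (G.θ f (x - y)) x + inner ℂ (G.θ f y) (x - y) := by
    rw [map_sub, inner_sub_left, inner_sub_right]
    ring
  rw [h1, Complex.add_re, Complex.add_re]
  have h2 : (inner ℂ (G.θ f (x - y)) x : ℂ).re ≤ ‖f‖ * ‖x - y‖ := by
    refine (Complex.re_le_norm _).trans ((norm_inner_le_norm _ _).trans ?_)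
    calc ‖G.θ f (x - y)‖ * ‖x‖ ≤ (‖f‖ * ‖x - y‖) * 1 := by
          gcongr
          exact G.norm_le f _
      _ = _ := mul_one _
  have h3 : (inner ℂ (G.θ f y) (x - y) : ℂ).re ≤ ‖f‖ * ‖x - y‖ := by
    refine (Complex.re_le_norm _).trans ((norm_inner_le_norm _ _).trans ?_)
    calc ‖G.θ f y‖ * ‖x - y‖ ≤ (‖f‖ * 1) * ‖x - y‖ := by
          gcongr
          exact (G.norm_le f _).trans (by gcongr)
      _ = _ := by rw [mul_one]
  linarith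

end Pool.Agent.Helper96.TZ
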