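import Mathlib

/-!
# Project TZ (MP_0f6f3f_an): projections in the commutant of a selfadjoint set of operators

`CZ T z`: `z` commutes with `T`. `SA z`: `z` is selfadjoint. `PZ T e`: `e` is a projection commuting with `T`.
`exists_proj`: projections onto closed invariant subspaces. `exists_sup`: suprema. `spec`: `z = z⁺ - z⁻`. `spec_norm`: spectral projections.
`cover`: `1 - ∏ (1 - p k) ≤ ∑ p k`. `bessel`: orthogonal projections. `exists_const`: `z` is almost constant on a smaller projection.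
-/

set_option autoImplicit false

open Filter Topology

namespace Pool.Agent.Helper96.TZ

variable {H : Type*} [NormedAddCommGroup H] [InnerProductSpace ℂ H]

/-- `z` commutes with `T`. -/
def CZ (T : Set (H →L[ℂ] H)) (z : H →L[ℂ] H) : Prop := ∀ t ∈ T, ∀ x, z (t x) = t (z x)

/-- `z` is selfadjoint. -/
def SA (z : H →L[ℂ] H) : Prop := ∀ x y, (inner ℂ (z x) y : ℂ) = inner ℂ x (z y)

/-- `e` is a projection commuting with `T`. -/
structure PZ (T : Set (H →L[ℂ] H)) (e : H →L[ℂ] H) : Prop where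
  mem : CZ T e
  sa : SA e
  idem : ∀ x, e (e x) = e x

theorem ips (x : H) : (inner ℂ x x : ℂ) = ((‖x‖ ^ 2 : ℝ) : ℂ) := by
  rw [inner_self_eq_norm_sq_to_K]
  norm_cast

variable {T : Set (H →L[ℂ] H)} {e f z a b : H →L[ℂ] H}

theorem CZ.sub (ha : CZ T a) (hb : CZ T b) : CZ T (a - b) := fun t ht x => by
  rw [_root_.sub_apply, _root_.sub_apply, ha t ht, hb t ht, map_sub]

theorem CZ.add (ha : CZ T a) (hb : CZ T b) : CZ T (a + b) := fun t ht x => by
  rw [_root_.add_apply, _root_.add_apply, ha t ht, hb t ht, map_add]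

theorem CZ.mul (ha : CZ T a) (hb : CZ T b) : CZ T (a * b) := fun t ht x => by
  change a (b (t x)) = t (a (b x))
  rw [hb t ht, ha t ht]

theorem CZ.one : CZ T (1 : H →L[ℂ] H) := fun _ _ _ => rfl

theorem CZ.zero : CZ T (0 : H →L[ℂ] H) := fun t _ _ => (map_zero t).symm

theorem CZ.smul (c : ℂ) (ha : CZ T a) : CZ T (c • a) := fun t ht x => by
  change c • a (t x) = t (c • a x)
  rw [ha t ht, map_smul]

theorem SA.sub (ha : SA a) (hb : SA b) : SA (a - b) := fun x y => by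
  rw [_root_.sub_apply, _root_.sub_apply, inner_sub_left, inner_sub_right, ha, hb]

theorem SA.one : SA (1 : H →L[ℂ] H) := fun _ _ => rfl

theorem SA.zero : SA (0 : H →L[ℂ] H) := fun x y => by simp

theorem SA.smul (c : ℝ) (ha : SA a) : SA ((c : ℂ) • a) := fun x y => by
  change inner ℂ ((c : ℂ) • a x) y = inner ℂ x ((c : ℂ) • a y)
  rw [inner_smul_left, inner_smul_right, ha, Complex.conj_ofReal]

theorem SA.mul (ha : SA a) (hb : SA b) (hc : ∀ x, a (b x) = b (a x)) : SA (a * b) := fun x y => by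
  change inner ℂ (a (b x)) y = inner ℂ x (a (b y))
  rw [ha, hb, hc]

theorem PZ.inner_self (he : PZ T e) (x : H) : (inner ℂ (e x) x : ℂ) = inner ℂ (e x) (e x) := by
  conv_rhs => rw [he.sa, he.idem]
  exact he.sa x x

theorem PZ.pyth (he : PZ T e) (x : H) : ‖x‖ ^ 2 = ‖e x‖ ^ 2 + ‖x - e x‖ ^ 2 := by
  have h1 : inner ℂ (e x) (x - e x) = (0 : ℂ) := by
    rw [inner_sub_right, he.inner_self, sub_self]
  have h2 := norm_add_sq_eq_norm_sq_add_norm_sq_of_inner_eq_zero (𝕜 := ℂ) (e x) (x - e x) h1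
  rw [add_sub_cancel] at h2
  nlinarith [h2]

theorem PZ.le (he : PZ T e) (x : H) : ‖e x‖ ≤ ‖x‖ := by
  have h1 := he.pyth x
  nlinarith [norm_nonneg x, norm_nonneg (e x), sq_nonneg ‖x - e x‖]

theorem PZ.one : PZ T (1 : H →L[ℂ] H) := ⟨CZ.one, SA.one, fun _ => rfl⟩

theorem PZ.compl (he : PZ T e) : PZ T (1 - e) :=
  ⟨CZ.one.sub he.mem, SA.one.sub he.sa, fun x => by
    change (x - e x) - e (x - e x) = x - e x
    rw [map_sub, he.idem, sub_self, sub_zero]⟩

theorem PZ.mul (he : PZ T e) (hf : PZ T f) (hc : ∀ x, e (f x) = f (e x)) : PZ T (e * f) :=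
  ⟨he.mem.mul hf.mem, he.sa.mul hf.sa hc, fun x => by
    change e (f (e (f x))) = e (f x)
    rw [← hc (f x), he.idem, hf.idem]⟩

theorem cover {ι : Type*} (hcomm : ∀ a b : H →L[ℂ] H, CZ T a → CZ T b → ∀ x, a (b x) = b (a x)) (s : Finset ι)
    (p : ι → H →L[ℂ] H) (hp : ∀ k ∈ s, PZ T (p k)) :
    ∃ q, PZ T q ∧ (∀ k ∈ s, ∀ x, p k (q x) = 0) ∧ ∀ x, ‖x‖ ^ 2 ≤ ‖q x‖ ^ 2 + ∑ k ∈ s, ‖p k x‖ ^ 2 := by
  classical
  induction s using Finset.induction_on with
  | empty => exact ⟨1, PZ.one, by simp, fun x => by simp⟩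
  | insert k s hk ih =>
    obtain ⟨q, hq, h1, h2⟩ := ih fun j hj => hp j (Finset.mem_insert_of_mem hj)
    have hpk := hp k (Finset.mem_insert_self k s)
    refine ⟨(1 - p k) * q, hpk.compl.mul hq (hcomm _ _ hpk.compl.mem hq.mem), fun j hj x => ?_, fun x => ?_⟩
    · change p j (q x - p k (q x)) = 0
      rcases Finset.mem_insert.1 hj with rfl | hj'
      · rw [map_sub, hpk.idem, sub_self]
      · have hpj := hp j (Finset.mem_insert_of_mem hj')
        rw [map_sub, h1 j hj', hcomm _ _ hpk.mem hq.mem, h1 j hj', sub_zero]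
    · rw [Finset.sum_insert hk]
      change ‖x‖ ^ 2 ≤ ‖q x - p k (q x)‖ ^ 2 + _
      have h3 := hpk.pyth (q x)
      have h4 : ‖p k (q x)‖ ≤ ‖p k x‖ := by
        rw [hcomm _ _ hpk.mem hq.mem]
        exact hq.le _
      have h5 : ‖p k (q x)‖ ^ 2 ≤ ‖p k x‖ ^ 2 := pow_le_pow_left₀ (norm_nonneg _) h4 2
      linarith [h2 x]

theorem bessel {ι : Type*} (s : Finset ι) (p : ι → H →L[ℂ] H) (hp : ∀ k ∈ s, PZ T (p k))
    (ho : ∀ i ∈ s, ∀ j ∈ s, i ≠ j → ∀ x, p i (p j x) = 0) (x : H) : ∑ k ∈ s, ‖p k x‖ ^ 2 ≤ ‖x‖ ^ 2 := by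
  classical
  induction s using Finset.induction_on generalizing x with
  | empty => simp
  | insert k s hk ih =>
    have hpk := hp k (Finset.mem_insert_self k s)
    have h1 := ih (fun j hj => hp j (Finset.mem_insert_of_mem hj))
      (fun i hi j hj => ho i (Finset.mem_insert_of_mem hi) j (Finset.mem_insert_of_mem hj)) (x - p k x)
    rw [Finset.sum_insert hk]
    have h2 : ∑ j ∈ s, ‖p j (x - p k x)‖ ^ 2 = ∑ j ∈ s, ‖p j x‖ ^ 2 := by
      refine Finset.sum_congr rfl fun j hj => ?_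
      rw [map_sub, ho j (Finset.mem_insert_of_mem hj) k (Finset.mem_insert_self k s) (by rintro rfl; exact hk hj), sub_zero]
    rw [h2] at h1
    linarith [hpk.pyth x]

section Complete

variable [CompleteSpace H]

theorem exists_proj (hT : ∀ t ∈ T, ContinuousLinearMap.adjoint t ∈ T) (E : Submodule ℂ H) (hE : IsClosed (E : Set H))
    (hinv : ∀ t ∈ T, ∀ x ∈ E, t x ∈ E) :
    ∃ p, PZ T p ∧ (∀ x, p x ∈ E) ∧ (∀ x ∈ E, p x = x) ∧ ∀ x, (∀ y ∈ E, (inner ℂ y x : ℂ) = 0) → p x = 0 := by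
  have : CompleteSpace E := hE.completeSpace_coe
  have h1 : ∀ x, E.starProjection x ∈ E := fun x => Submodule.starProjection_apply_mem E x
  have h2 : ∀ x ∈ E, E.starProjection x = x := fun x hx => Submodule.starProjection_eq_self_iff.2 hx
  have h3 : ∀ x, (∀ y ∈ E, (inner ℂ y x : ℂ) = 0) → E.starProjection x = 0 := fun x hx =>
    (Submodule.starProjection_apply_eq_zero_iff E).2 ((Submodule.mem_orthogonal E x).2 hx)
  have h4 : ∀ x, ∀ y ∈ E, (inner ℂ y (x - E.starProjection x) : ℂ) = 0 := fun x y hy =>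
    (Submodule.mem_orthogonal E _).1 (Submodule.sub_starProjection_mem_orthogonal x) y hy
  refine ⟨E.starProjection, ⟨fun t ht x => ?_, fun x y => ?_, fun x => h2 _ (h1 x)⟩, h1, h2, h3⟩
  · have h5 : t x = t (E.starProjection x) + t (x - E.starProjection x) := by
      rw [← map_add, add_sub_cancel]
    conv_lhs => rw [h5, map_add, h2 _ (hinv t ht _ (h1 x))]
    rw [h3 (t (x - E.starProjection x)) fun y hy => ?_, add_zero]
    have h6 := h4 x (ContinuousLinearMap.adjoint t y) (hinv _ (hT t ht) y hy)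
    rwa [ContinuousLinearMap.adjoint_inner_left] at h6
  · exact Submodule.inner_starProjection_left_eq_right E x y

theorem exists_sup (hT : ∀ t ∈ T, ContinuousLinearMap.adjoint t ∈ T) (A : Set (H →L[ℂ] H)) (hA : ∀ a ∈ A, PZ T a) :
    ∃ p, PZ T p ∧ (∀ a ∈ A, ∀ x, p (a x) = a x) ∧
      ∀ f : H →L[ℂ] H, (∀ a ∈ A, ∀ x, f (a x) = 0) → ∀ x, f (p x) = 0 := by
  set E₀ : Submodule ℂ H := Submodule.span ℂ {y | ∃ a ∈ A, ∃ x, y = a x} with hE₀
  have h0 : ∀ t ∈ T, ∀ x ∈ E₀, t x ∈ E₀ := by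
    intro t ht x hx
    induction hx using Submodule.span_induction with
    | mem x hx =>
      obtain ⟨a, ha, w, rfl⟩ := hx
      refine Submodule.subset_span ⟨a, ha, t w, ?_⟩
      exact ((hA a ha).mem t ht w).symm
    | zero => rw [map_zero]; exact E₀.zero_mem
    | add x y _ _ h1 h2 => rw [map_add]; exact E₀.add_mem h1 h2
    | smul c x _ h1 => rw [map_smul]; exact E₀.smul_mem c h1
  obtain ⟨p, hp, h1, h2, h3⟩ := exists_proj hT E₀.topologicalClosure E₀.isClosed_topologicalClosure (by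
    intro t ht x hx
    have h4 : Set.MapsTo t (E₀ : Set H) (E₀ : Set H) := fun y hy => h0 t ht y hy
    exact h4.closure t.continuous hx)
  refine ⟨p, hp, fun a ha x => h2 _ (E₀.le_topologicalClosure (Submodule.subset_span ⟨a, ha, x, rfl⟩)), ?_⟩
  intro f hf x
  have h5 : E₀.topologicalClosure ≤ LinearMap.ker f.toLinearMap := by
    refine Submodule.topologicalClosure_minimal _ ?_ (ContinuousLinearMap.isClosed_ker f)
    rw [hE₀, Submodule.span_le]
    rintro _ ⟨a, ha, w, rfl⟩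
    exact hf a ha w
  exact h5 (h1 x)

theorem spec (hT : ∀ t ∈ T, ContinuousLinearMap.adjoint t ∈ T) (hz : CZ T z) (hs : SA z) :
    ∃ p, PZ T p ∧ (∀ x, 0 ≤ (inner ℂ (z (p x)) (p x) : ℂ).re) ∧ ∀ x, p x = 0 → (inner ℂ (z x) x : ℂ).re ≤ 0 := by
  have hsa : IsSelfAdjoint z := by
    rw [ContinuousLinearMap.isSelfAdjoint_iff']
    refine ContinuousLinearMap.ext fun x => ext_inner_right ℂ fun y => ?_
    rw [ContinuousLinearMap.adjoint_inner_left, hs]
  set P : H →L[ℂ] H := cfc (fun r : ℝ => max r 0) z with hP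
  set N : H →L[ℂ] H := cfc (fun r : ℝ => max (-r) 0) z with hN
  have h1 : z = P - N := by
    rw [hP, hN, ← cfc_sub (fun r : ℝ => max r 0) (fun r : ℝ => max (-r) 0) z
      (by fun_prop) (by fun_prop)]
    conv_lhs => rw [← cfc_id' ℝ z]
    refine cfc_congr fun r _ => ?_
    rcases le_total r 0 with h | h
    · simp only [max_eq_right h, max_eq_left (neg_nonneg.2 h)]; ring
    · simp only [max_eq_left h, max_eq_right (neg_nonpos.2 h)]; ring
  have h2 : N * P = 0 := by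
    rw [hP, hN, ← cfc_mul (fun r : ℝ => max (-r) 0) (fun r : ℝ => max r 0) z (by fun_prop) (by fun_prop)]
    rw [← cfc_zero ℝ z]
    refine cfc_congr fun r _ => ?_
    rcases le_total r 0 with h | h
    · simp [max_eq_right h]
    · simp [max_eq_right (neg_nonpos.2 h)]
  have h3 : 0 ≤ P := cfc_nonneg fun r _ => le_max_right _ _
  have h4 : 0 ≤ N := cfc_nonneg fun r _ => le_max_right _ _
  have h3' := (ContinuousLinearMap.nonneg_iff_isPositive P).1 h3
  have h4' := (ContinuousLinearMap.nonneg_iff_isPositive N).1 h4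
  have hc : ∀ t ∈ T, ∀ x, P (t x) = t (P x) := by
    intro t ht x
    have h5 : Commute z t := by
      ext y
      exact hz t ht y
    have h6 : Commute P t := h5.cfc_real _
    exact congrArg (fun A : H →L[ℂ] H => A x) h6.eq
  have hPs : ∀ x y, (inner ℂ (P x) y : ℂ) = inner ℂ x (P y) := fun x y => by
    have h7 := h3'.isSelfAdjoint
    rw [ContinuousLinearMap.isSelfAdjoint_iff'] at h7
    conv_lhs => rw [← h7]
    rw [ContinuousLinearMap.adjoint_inner_left]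
  set E₀ : Submodule ℂ H := LinearMap.range P.toLinearMap with hE₀
  obtain ⟨p, hp, k1, k2, k3⟩ := exists_proj hT E₀.topologicalClosure E₀.isClosed_topologicalClosure (by
    intro t ht x hx
    have h4 : Set.MapsTo t (E₀ : Set H) (E₀ : Set H) := by
      rintro _ ⟨y, rfl⟩
      exact ⟨t y, hc t ht y⟩
    exact h4.closure t.continuous hx)
  refine ⟨p, hp, fun x => ?_, fun x hx => ?_⟩
  · have k4 : ∀ y ∈ E₀.topologicalClosure, 0 ≤ (inner ℂ (z y) y : ℂ).re := by
      have k5 : IsClosed {y : H | 0 ≤ (inner ℂ (z y) y : ℂ).re} := by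
        refine isClosed_le continuous_const ?_
        exact Complex.continuous_re.comp (z.continuous.inner continuous_id)
      intro y hy
      refine k5.closure_subset_iff.2 ?_ hy
      rintro _ ⟨w, rfl⟩
      change 0 ≤ (inner ℂ (z (P w)) (P w) : ℂ).re
      rw [h1]
      have k6 : N (P w) = 0 := congrArg (fun A : H →L[ℂ] H => A w) h2
      rw [_root_.sub_apply, k6, sub_zero]
      exact h3'.re_inner_nonneg_left (P w)
    exact k4 _ (k1 x)
  · have k4 : P x = 0 := by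
      have k5 : inner ℂ (P x) (P x) = (0 : ℂ) := by
        have k6 : P (P x) ∈ E₀.topologicalClosure := E₀.le_topologicalClosure ⟨P x, rfl⟩
        have k7 : inner ℂ (p (P (P x))) x = (inner ℂ (P (P x)) (p x) : ℂ) := hp.sa _ _
        rw [k2 _ k6, hx, inner_zero_right] at k7
        rw [← hPs]
        exact k7
      exact inner_self_eq_zero.1 k5
    rw [h1, _root_.sub_apply, k4, zero_sub, inner_neg_left, Complex.neg_re]
    have := h4'.re_inner_nonneg_left x
    exact neg_nonpos.2 this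

/-- Spectral projections of a selfadjoint element. -/
theorem spec_norm (hT : ∀ t ∈ T, ContinuousLinearMap.adjoint t ∈ T) (hz : CZ T z) (hs : SA z) {κ : ℝ} (hκ : 0 ≤ κ) :
    ∃ p, PZ T p ∧ (∀ x, ‖z (p x)‖ ≤ κ * ‖p x‖) ∧ ∀ x, p x = 0 → κ * ‖x‖ ≤ ‖z x‖ := by
  have h1 : ∀ x, (inner ℂ ((((κ ^ 2 : ℝ) : ℂ) • (1 : H →L[ℂ] H) - z * z) x) x : ℂ).re = κ ^ 2 * ‖x‖ ^ 2 - ‖z x‖ ^ 2 := by
    intro x
    change (inner ℂ ((((κ ^ 2 : ℝ) : ℂ)) • x - z (z x)) x : ℂ).re = _
    rw [inner_sub_left, inner_smul_left, hs (z x) x, Complex.conj_ofReal, Complex.sub_re, ips, ips,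
      ← Complex.ofReal_mul, Complex.ofReal_re, Complex.ofReal_re]
  obtain ⟨p, hp, h2, h3⟩ := spec (z := ((κ ^ 2 : ℝ) : ℂ) • (1 : H →L[ℂ] H) - z * z) hT
    ((CZ.smul _ CZ.one).sub (hz.mul hz)) ((SA.smul _ SA.one).sub (hs.mul hs fun _ => rfl))
  refine ⟨p, hp, fun x => ?_, fun x hx => ?_⟩
  · have h4 := h2 x
    rw [h1] at h4
    exact abs_le_of_sq_le_sq' (by nlinarith [h4]) (by positivity) |>.2
  · have h4 := h3 x hx
    rw [h1] at h4
    exact abs_le_of_sq_le_sq' (by nlinarith [h4]) (norm_nonneg _) |>.2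

/-- A selfadjoint element is almost constant on a smaller projection. -/
theorem exists_const (hT : ∀ t ∈ T, ContinuousLinearMap.adjoint t ∈ T)
    (hcomm : ∀ a b : H →L[ℂ] H, CZ T a → CZ T b → ∀ x, a (b x) = b (a x))
    (hz : CZ T z) (hs : SA z) (hn : ∀ x, ‖z x‖ ≤ ‖x‖) (he : PZ T e) (h0 : e ≠ 0) {δ : ℝ} (hδ : 0 < δ) :
    ∃ e', PZ T e' ∧ e' ≠ 0 ∧ (∀ x, e (e' x) = e' x) ∧ ∃ c : ℝ, ∀ x, ‖z (e' x) - (c : ℂ) • e' x‖ ≤ δ * ‖e' x‖ := by
  have step : ∀ n : ℕ, ∃ e', PZ T e' ∧ e' ≠ 0 ∧ (∀ x, e (e' x) = e' x) ∧ ∃ c : ℝ,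
      (∀ x, c * ‖e' x‖ ^ 2 ≤ (inner ℂ (z (e' x)) (e' x) : ℂ).re) ∧
      ∀ x, (inner ℂ (z (e' x)) (e' x) : ℂ).re ≤ (c + 2 * (1 / 2) ^ n) * ‖e' x‖ ^ 2 := by
    intro n
    induction n with
    | zero =>
      refine ⟨e, he, h0, he.idem, -1, fun x => ?_, fun x => ?_⟩
      · have h1 := (abs_le.1 ((Complex.abs_re_le_norm _).trans (norm_inner_le_norm (𝕜 := ℂ) (z (e x)) (e x)))).1
        nlinarith [hn (e x), norm_nonneg (e x)]
      · have h1 := (abs_le.1 ((Complex.abs_re_le_norm _).trans (norm_inner_le_norm (𝕜 := ℂ) (z (e x)) (e x)))).2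
        have h2 : (-1 + 2 * (1 / 2 : ℝ) ^ 0) = 1 := by norm_num
        rw [h2]
        nlinarith [hn (e x), norm_nonneg (e x)]
    | succ n ih =>
      obtain ⟨e₁, he₁, h1, h2, c, h3, h4⟩ := ih
      set m : ℝ := c + (1 / 2) ^ n with hm
      obtain ⟨p, hp, k1, k2⟩ := spec (z := z - (m : ℂ) • (1 : H →L[ℂ] H)) hT
        (hz.sub (CZ.smul _ CZ.one)) (hs.sub (SA.smul _ SA.one))
      have k3 : ∀ x, (inner ℂ ((z - (m : ℂ) • (1 : H →L[ℂ] H)) x) x : ℂ).re = (inner ℂ (z x) x : ℂ).re - m * ‖x‖ ^ 2 := by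
        intro x
        change (inner ℂ (z x - (m : ℂ) • x) x : ℂ).re = _
        rw [inner_sub_left, inner_smul_left, Complex.conj_ofReal, Complex.sub_re, ips,
          ← Complex.ofReal_mul, Complex.ofReal_re]
      have k4 : ∀ x, e₁ (p x) = p (e₁ x) := hcomm _ _ he₁.mem hp.mem
      have k5 : (1 / 2 : ℝ) ^ (n + 1) = (1 / 2) ^ n / 2 := by rw [pow_succ]; ring
      by_cases hz0 : e₁ * p = 0
      · -- `e₁ = e₁ (1 - p)`
        refine ⟨e₁, he₁, h1, h2, c, h3, fun x => ?_⟩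
        have k6 : p (e₁ x) = 0 := by
          rw [← k4]
          exact congrArg (fun A : H →L[ℂ] H => A x) hz0
        have k7 := k2 _ k6
        rw [k3] at k7
        rw [k5]
        have : c + 2 * ((1 / 2) ^ n / 2) = m := by rw [hm]; ring
        rw [this]
        linarith
      · refine ⟨e₁ * p, he₁.mul hp k4, hz0, fun x => h2 (p x), m, fun x => ?_, fun x => ?_⟩
        · have k6 := k1 (e₁ x)
          rw [k3, ← k4] at k6
          change m * ‖e₁ (p x)‖ ^ 2 ≤ (inner ℂ (z (e₁ (p x))) (e₁ (p x)) : ℂ).re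
          linarith
        · have k6 := h4 (p x)
          change (inner ℂ (z (e₁ (p x))) (e₁ (p x)) : ℂ).re ≤ (m + 2 * (1 / 2) ^ (n + 1)) * ‖e₁ (p x)‖ ^ 2
          rw [k5]
          have : m + 2 * ((1 / 2) ^ n / 2) = c + 2 * (1 / 2) ^ n := by rw [hm]; ring
          rwa [this]
  obtain ⟨n, hn1⟩ := exists_pow_lt_of_lt_one (show (0 : ℝ) < δ / 2 by positivity) (show (1 / 2 : ℝ) < 1 by norm_num)
  obtain ⟨e', he', h1, h2, c, h3, h4⟩ := step n
  refine ⟨e', he', h1, h2, c, fun x => ?_⟩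
  -- `0 ≤ D ≤ δ` on the range of `e'`, so `‖D e' x‖ ≤ δ ‖e' x‖`
  set D : H →L[ℂ] H := z - (c : ℂ) • (1 : H →L[ℂ] H) with hD
  have hDz : CZ T D := hz.sub (CZ.smul _ CZ.one)
  have hDs : SA D := hs.sub (SA.smul _ SA.one)
  have hDe : ∀ x, D (e' x) = e' (D x) := hcomm _ _ hDz he'.mem
  have q1 : ∀ x, (inner ℂ (D x) x : ℂ).re = (inner ℂ (z x) x : ℂ).re - c * ‖x‖ ^ 2 := by
    intro x
    change (inner ℂ (z x - (c : ℂ) • x) x : ℂ).re = _
    rw [inner_sub_left, inner_smul_left, Complex.conj_ofReal, Complex.sub_re, ips,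
      ← Complex.ofReal_mul, Complex.ofReal_re]
  have q2 : ∀ x, 0 ≤ (inner ℂ (D (e' x)) (e' x) : ℂ).re := fun x => by
    rw [q1]
    linarith [h3 x]
  have q3 : ∀ x, (inner ℂ (D (e' x)) (e' x) : ℂ).re ≤ δ * ‖e' x‖ ^ 2 := fun x => by
    rw [q1]
    have := h4 x
    nlinarith [sq_nonneg ‖e' x‖]
  -- Cauchy-Schwarz for the positive form of `D e'`
  have q4 : ∀ y, e' y = y → ‖D y‖ ^ 2 ≤ δ * (inner ℂ (D y) y : ℂ).re := by
    intro y hy
    -- use the quadratic form at `D y - δ y`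
    set w := y
    have r1 : e' (D w) = D w := by rw [← hDe, hy]
    -- `re ⟨D (D w - t w), D w - t w⟩ ≤ δ ‖D w - t w‖²` and `0 ≤`
    have r2 : ∀ u, e' u = u → 0 ≤ (inner ℂ (D u) u : ℂ).re := fun u hu => by
      have := q2 u
      rwa [hu] at this
    have r3 : ∀ u, e' u = u → (inner ℂ (D u) u : ℂ).re ≤ δ * ‖u‖ ^ 2 := fun u hu => by
      have := q3 u
      rwa [hu] at this
    -- `0 ≤ ⟨D (D w - δ w), (D w - δ w)⟩` and `⟨D (D w), D w⟩ ≤ δ ‖D w‖²`
    have r4 := r2 (D w - (δ : ℂ) • w) (by rw [map_sub, map_smul, r1, hy])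
    have r5 := r3 (D w) r1
    have r6 : (inner ℂ (D (D w - (δ : ℂ) • w)) (D w - (δ : ℂ) • w) : ℂ).re =
        (inner ℂ (D (D w)) (D w) : ℂ).re - 2 * δ * ‖D w‖ ^ 2 + δ ^ 2 * (inner ℂ (D w) w : ℂ).re := by
      rw [map_sub, map_smul, inner_sub_left, inner_sub_right, inner_sub_right, inner_smul_left, inner_smul_left,
        inner_smul_right, inner_smul_right, Complex.conj_ofReal, hDs (D w) w, ips]
      simp only [Complex.sub_re, Complex.mul_re, Complex.ofReal_re, Complex.ofReal_im, zero_mul, sub_zero]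
      ring
    rw [r6] at r4
    have r7 : δ * ‖D w‖ ^ 2 ≤ δ * (δ * (inner ℂ (D w) w : ℂ).re) := by nlinarith
    exact le_of_mul_le_mul_left r7 hδ
  have q5 := q4 (e' x) (he'.idem x)
  have q6 : ‖D (e' x)‖ ^ 2 ≤ (δ * ‖e' x‖) ^ 2 := by
    have := q3 x
    calc ‖D (e' x)‖ ^ 2 ≤ δ * (inner ℂ (D (e' x)) (e' x) : ℂ).re := q5
      _ ≤ δ * (δ * ‖e' x‖ ^ 2) := by gcongr
      _ = _ := by ring
  exact abs_le_of_sq_le_sq' q6 (by positivity) |>.2

end Complete

end Pool.Agent.Helper96.TZ
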