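import Pool.Agent.Helper96.TZ.GFl
import Pool.Agent.Helper96.TZ.Dyn
import Pool.Agent.Helper43.TZ.Phi

/-!
# Project TZ (MP_0f6f3f_an): strong transitivity

`exists_st`: there are a point `ω₀` and a compact set `B` such that the vectors `v i` live on `B ω₀` up to `ε`.
-/

set_option autoImplicit false
set_option linter.unusedSectionVars false

open MeasureTheory Filter Topology
open scoped ENNReal

namespace Pool.Agent.Helper96.TZ

open Pool.Agent.Helper43.TZ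

variable {S1 S2 H : Type} [Group S1] [TopologicalSpace S1] [Group S2] [TopologicalSpace S2] [IsTopologicalGroup S2]
  [LocallyCompactSpace S2] [SecondCountableTopology S2] [T2Space S2] [MeasurableSpace S2] [BorelSpace S2]
  {μ : Measure S2} [μ.IsHaarMeasure] [NormedAddCommGroup H] [InnerProductSpace ℂ H] [CompleteSpace H]

theorem mem_Z_comm (L : Lev S1 S2 H μ) {a y : H →L[ℂ] H} (ha : a ∈ L.Z) (hy : y ∈ L.J) (ξ : H) : a (y ξ) = y (a ξ) := by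
  have h1 : a ∈ L.J' := ha.2
  have h2 := (StarSubalgebra.mem_centralizer_iff ℂ).1 h1 y hy
  exact (congrArg (fun T : H →L[ℂ] H => T ξ) h2.1).symm

theorem I2_mul (L : Lev S1 S2 H μ) {a x : H →L[ℂ] H} (hx : L.I2 x) : L.I2 (a * x) := by
  obtain ⟨C, hC⟩ := hx
  refine ⟨‖a‖ ^ 2 * C, fun ξ => ?_⟩
  calc ∫⁻ h, ‖cj (L.W h) (a * x) ξ‖ₑ ^ 2 ∂μ ≤ ∫⁻ h, ENNReal.ofReal (‖a‖ ^ 2) * ‖cj (L.W h) x ξ‖ₑ ^ 2 ∂μ := by
        refine lintegral_mono fun h => ?_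
        have h1 : ‖cj (L.W h) (a * x) ξ‖ ≤ ‖a‖ * ‖cj (L.W h) x ξ‖ := by
          rw [cj_mul']
          exact ((cj (L.W h) a).le_opNorm _).trans (mul_le_mul_of_nonneg_right (norm_cj_le _ _) (norm_nonneg _))
        have h2 : ‖cj (L.W h) (a * x) ξ‖ ^ 2 ≤ ‖a‖ ^ 2 * ‖cj (L.W h) x ξ‖ ^ 2 := by
          rw [← mul_pow]
          exact pow_le_pow_left₀ (norm_nonneg _) h1 2
        have h3 : ∀ y : H, ‖y‖ₑ ^ 2 = ENNReal.ofReal (‖y‖ ^ 2) := fun y => by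
          rw [← ofReal_norm, ENNReal.ofReal_pow (norm_nonneg _)]
        rw [h3, h3, ← ENNReal.ofReal_mul (by positivity)]
        exact ENNReal.ofReal_le_ofReal h2
    _ = ENNReal.ofReal (‖a‖ ^ 2) * ∫⁻ h, ‖cj (L.W h) x ξ‖ₑ ^ 2 ∂μ := lintegral_const_mul' _ _ ENNReal.ofReal_ne_top
    _ ≤ ENNReal.ofReal (‖a‖ ^ 2) * (ENNReal.ofReal C * ‖ξ‖ₑ ^ 2) := by gcongr; exact hC ξ
    _ = ENNReal.ofReal (‖a‖ ^ 2 * C) * ‖ξ‖ₑ ^ 2 := by
        rw [ENNReal.ofReal_mul (by positivity), mul_assoc]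

variable {A : Set (H →L[ℂ] H)} {Ω : Type} [TopologicalSpace Ω]

/-- The density of the form. -/
noncomputable def Kf (L : Lev S1 S2 H μ) (G : GF L.V L.W A Ω) (x : H →L[ℂ] H) (f : C(Ω, ℝ)) (ζ : H) (h : S2) : ℝ :=
  (inner ℂ (cj (L.W h) (G.θ f * x) ζ) (cj (L.W h) x ζ) : ℂ).re

theorem Kf_integrable (L : Lev S1 S2 H μ) (G : GF L.V L.W A Ω) {x : H →L[ℂ] H} (hx : L.I2 x) (f : C(Ω, ℝ)) (ζ : H) :
    Integrable (Kf L G x f ζ) μ :=
  (integrable_phi L (I2_mul L hx) hx ζ ζ).re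

theorem Kf_add (L : Lev S1 S2 H μ) (G : GF L.V L.W A Ω) (x : H →L[ℂ] H) (f g : C(Ω, ℝ)) (ζ : H) (h : S2) :
    Kf L G x (f + g) ζ h = Kf L G x f ζ h + Kf L G x g ζ h := by
  unfold Kf
  rw [G.add, add_mul, cj_add, _root_.add_apply, inner_add_left, Complex.add_re]

theorem Kf_smul (L : Lev S1 S2 H μ) (G : GF L.V L.W A Ω) (x : H →L[ℂ] H) (c : ℝ) (f : C(Ω, ℝ)) (ζ : H) (h : S2) :
    Kf L G x (c • f) ζ h = c * Kf L G x f ζ h := by
  unfold Kf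
  rw [G.smul, smul_mul_assoc, cj_smul']
  change (inner ℂ ((c : ℂ) • cj (L.W h) (G.θ f * x) ζ) (cj (L.W h) x ζ) : ℂ).re = _
  rw [inner_smul_left, Complex.conj_ofReal, Complex.re_ofReal_mul]

/-- Translation. -/
noncomputable def tr (L : Lev S1 S2 H μ) (G : GF L.V L.W A Ω) (h : S2) (f : C(Ω, ℝ)) : C(Ω, ℝ) :=
  f.comp ⟨G.a₂ h, G.cont₂.comp (Continuous.prodMk continuous_const continuous_id)⟩

theorem tr_apply (L : Lev S1 S2 H μ) (G : GF L.V L.W A Ω) (h : S2) (f : C(Ω, ℝ)) (ω : Ω) : tr L G h f ω = f (G.a₂ h ω) := rfl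

theorem cj_θ (L : Lev S1 S2 H μ) (G : GF L.V L.W A Ω) (h : S2) (f : C(Ω, ℝ)) : cj (L.W h) (G.θ f) = G.θ (tr L G h⁻¹ f) := by
  have h1 : tr L G h (tr L G h⁻¹ f) = f := by
    ext ω
    rw [tr_apply, tr_apply, ← G.mul₂, inv_mul_cancel, G.one₂]
  conv_lhs => rw [← h1]
  exact G.eW h (tr L G h⁻¹ f)

theorem Kf_eq (L : Lev S1 S2 H μ) (G : GF L.V L.W A Ω) (x : H →L[ℂ] H) (f : C(Ω, ℝ)) (ζ : H) (h : S2) :
    Kf L G x f ζ h = G.fn (cj (L.W h) x ζ) (tr L G h⁻¹ f) := by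
  unfold Kf
  rw [cj_mul', cj_θ]
  rfl

theorem Kf_nonneg (L : Lev S1 S2 H μ) (G : GF L.V L.W A Ω) (x : H →L[ℂ] H) {f : C(Ω, ℝ)} (hf : 0 ≤ f) (ζ : H) (h : S2) :
    0 ≤ Kf L G x f ζ h := by
  rw [Kf_eq]
  exact G.nonneg (f := tr L G h⁻¹ f) (fun ω => hf (G.a₂ h⁻¹ ω)) _

theorem Kf_one (L : Lev S1 S2 H μ) (G : GF L.V L.W A Ω) (x : H →L[ℂ] H) (ζ : H) (h : S2) :
    Kf L G x 1 ζ h = ‖cj (L.W h) x ζ‖ ^ 2 := by
  unfold Kf
  rw [G.one, one_mul, ips']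

/-- `‖Kf e (g ζ)‖ = ⟨e_h f y, y⟩`, `f = g²`. -/
theorem Kf_rt (L : Lev S1 S2 H μ) (G : GF L.V L.W A Ω) (hA : ∀ a ∈ A, a ∈ L.Z) {x : H →L[ℂ] H} (hxJ : x ∈ L.J) (e : C(Ω, ℝ)) {f : C(Ω, ℝ)}
    (hf : 0 ≤ f) (ζ : H) (h : S2) :
    Kf L G x e (G.θ (rt f) ζ) h = G.fn (cj (L.W h) x ζ) (tr L G h⁻¹ e * f) := by
  rw [Kf_eq, GF.fn_apply, GF.fn_apply, ← mem_Z_comm L (hA _ (G.mem (rt f))) (L.RW x hxJ h) ζ]
  set y := cj (L.W h) x ζ
  have h1 : tr L G h⁻¹ e * f = rt f * (tr L G h⁻¹ e * rt f) := by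
    conv_lhs => rw [← rt_mul hf]
    ring
  rw [h1, G.mul (rt f) (tr L G h⁻¹ e * rt f), G.mul (tr L G h⁻¹ e) (rt f)]
  change _ = (inner ℂ (G.θ (rt f) (G.θ (tr L G h⁻¹ e) (G.θ (rt f) y))) y : ℂ).re
  rw [G.sa (rt f)]

theorem exists_mass (L : Lev S1 S2 H μ) (G : GF L.V L.W A Ω) (hA : ∀ a ∈ A, a ∈ L.Z) {x : H →L[ℂ] H} (hxJ : x ∈ L.J) (hx : L.I2 x)
    (f : C(Ω, ℝ)) : ∃ c : ℝ, ∀ ζ, ∫ h, Kf L G x f ζ h ∂μ = c * ‖ζ‖ ^ 2 := by
  have h1 : G.θ f * x ∈ L.J := L.J.mul_mem (hA _ (G.mem f)).1 hxJ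
  obtain ⟨c, hc⟩ := exists_phi L h1 hxJ (I2_mul L hx) hx
  refine ⟨c.re, fun ζ => ?_⟩
  have h2 : ∫ h, Kf L G x f ζ h ∂μ = (∫ h, (inner ℂ (cj (L.W h) (G.θ f * x) ζ) (cj (L.W h) x ζ) : ℂ) ∂μ).re := by
    exact integral_re (integrable_phi L (I2_mul L hx) hx ζ ζ)
  rw [h2, hc, inner_self_eq_norm_sq_to_K]
  have h3 : ((‖ζ‖ : ℂ) ^ 2) = ((‖ζ‖ ^ 2 : ℝ) : ℂ) := by norm_cast
  change (c * (‖ζ‖ : ℂ) ^ 2).re = _
  rw [h3, Complex.re_mul_ofReal]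

variable [CompactSpace Ω] [T2Space Ω]

theorem exists_st (L : Lev S1 S2 H μ) (G : GF L.V L.W A Ω) (hA : ∀ a ∈ A, a ∈ L.Z) {x : H →L[ℂ] H} (hxJ : x ∈ L.J) (hx : L.I2 x)
    (hx0 : x ≠ 0) {n : ℕ} (v : Fin n → H) (hv : ∀ i, ‖v i‖ ≤ 1) {ε : ℝ} (hε : 0 < ε) :
    ∃ B : Set S2, IsCompact B ∧ ∃ ω₀ : Ω, ∀ i (f : C(Ω, ℝ)) (c : ℝ), 0 ≤ f → 0 ≤ c → (∀ h ∈ B, f (G.a₂ h ω₀) ≤ c) →
      G.fn (v i) f ≤ c + ε * ‖f‖ := by
  -- a unit vector
  obtain ⟨ζ₀, hζ₀⟩ : ∃ ζ₀ : H, ‖ζ₀‖ = 1 := by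
    obtain ⟨w, hw⟩ : ∃ w, x w ≠ 0 := by
      by_contra h
      push Not at h
      exact hx0 (ContinuousLinearMap.ext h)
    have hw0 : w ≠ 0 := by
      rintro rfl
      exact hw (map_zero x)
    exact ⟨((‖w‖ : ℂ))⁻¹ • w, by
      rw [norm_smul, norm_inv, Complex.norm_real, norm_norm, inv_mul_cancel₀ (norm_ne_zero_iff.2 hw0)]⟩
  obtain ⟨c₀, hc₀, hφ⟩ := phi_pos L hxJ hx hx0
  have hint : ∀ f ζ, Integrable (Kf L G x f ζ) μ := Kf_integrable L G hx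
  -- the compact set
  obtain ⟨B, hB, hB1⟩ : ∃ B : Set S2, IsCompact B ∧ ∑ i, ∫ h in Bᶜ, Kf L G x 1 (v i) h ∂μ < ε * c₀ := by
    set E := CompactExhaustion.choice S2
    have h1 : ∀ i, Tendsto (fun j => ∫ h in (E j)ᶜ, Kf L G x 1 (v i) h ∂μ) atTop (𝓝 0) := by
      intro i
      have h2 := tendsto_setIntegral_of_antitone (μ := μ) (f := Kf L G x 1 (v i)) (s := fun j => (E j)ᶜ)
        (fun j => (E.isCompact j).isClosed.measurableSet.compl)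
        (fun j k hjk => Set.compl_subset_compl.2 (E.subset hjk)) ⟨0, (hint _ _).integrableOn⟩
      have h3 : ⋂ j, (E j)ᶜ = (∅ : Set S2) := by rw [← Set.compl_iUnion, E.iUnion_eq, Set.compl_univ]
      rw [h3, Measure.restrict_empty, integral_zero_measure] at h2
      exact h2
    have h2 := tendsto_finsetSum Finset.univ fun i (_ : i ∈ Finset.univ) => h1 i
    rw [Finset.sum_const_zero] at h2
    obtain ⟨j, hj⟩ := (h2.eventually (Iio_mem_nhds (show 0 < ε * c₀ by positivity))).exists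
    exact ⟨E j, E.isCompact j, hj⟩
  choose M hM using exists_mass L G hA hxJ hx
  -- the functionals
  set μ' : C(Ω, ℝ) →ₗ[ℝ] ℝ :=
    { toFun := fun f => ∫ h, Kf L G x f ζ₀ h ∂μ
      map_add' := fun f g => by
        rw [← integral_add (hint f ζ₀) (hint g ζ₀)]
        exact integral_congr_ae (Eventually.of_forall fun h => Kf_add L G x f g ζ₀ h)
      map_smul' := fun c f => by
        rw [RingHom.id_apply, smul_eq_mul, ← integral_const_mul]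
        exact integral_congr_ae (Eventually.of_forall fun h => Kf_smul L G x c f ζ₀ h) } with hμ'
  have hμ'a : ∀ f, μ' f = ∫ h, Kf L G x f ζ₀ h ∂μ := fun f => rfl
  set ν : Fin n → C(Ω, ℝ) →ₗ[ℝ] ℝ := fun i =>
    { toFun := fun f => ∫ h in Bᶜ, Kf L G x f (v i) h ∂μ
      map_add' := fun f g => by
        rw [← integral_add (hint f (v i)).integrableOn (hint g (v i)).integrableOn]
        exact integral_congr_ae (Eventually.of_forall fun h => Kf_add L G x f g (v i) h)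
      map_smul' := fun c f => by
        rw [RingHom.id_apply, smul_eq_mul, ← integral_const_mul]
        exact integral_congr_ae (Eventually.of_forall fun h => Kf_smul L G x c f (v i) h) } with hν
  have hνa : ∀ i f, ν i f = ∫ h in Bᶜ, Kf L G x f (v i) h ∂μ := fun i f => rfl
  have hμM : ∀ f, μ' f = M f := fun f => by rw [hμ'a, hM, hζ₀, one_pow, mul_one]
  have hμ1 : μ' 1 = c₀ := by
    rw [hμ'a, integral_congr_ae (Eventually.of_forall fun h => Kf_one L G x ζ₀ h), hφ, hζ₀, one_pow, mul_one]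
  obtain ⟨ω₀, hω₀⟩ := st_point G.a₂ G.cont₂ μ' ν (fun i => G.fn (v i))
    (fun i f hf => by
      rw [hνa]
      exact integral_nonneg fun h => Kf_nonneg L G x hf _ _) hε B hB (by rw [hμ1]; exact hB1) (by
    intro i e f c he hf hc' hc
    have hBm : MeasurableSet (Bᶜ : Set S2) := hB.isClosed.measurableSet.compl
    -- the pointwise inequality
    have h1 : ∀ h, Kf L G x e (G.θ (rt f) (v i)) h ≤
        c * Kf L G x e (v i) h + ‖f‖ * (Bᶜ : Set S2).indicator (Kf L G x e (v i)) h := by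
      intro h
      have h2 : tr L G h⁻¹ e * f ≤ ‖f‖ • tr L G h⁻¹ e := fun ω => by
        change e (G.a₂ h⁻¹ ω) * f ω ≤ ‖f‖ * e (G.a₂ h⁻¹ ω)
        rw [mul_comm ‖f‖]
        exact mul_le_mul_of_nonneg_left ((Real.le_norm_self _).trans (f.norm_coe_le_norm ω)) (he _)
      rw [Kf_rt L G hA hxJ e hf]
      by_cases hh : h ∈ B
      · rw [Set.indicator_of_notMem (show h ∉ (Bᶜ : Set S2) from fun h' => h' hh), mul_zero, add_zero, Kf_eq]
        have h3 : tr L G h⁻¹ e * f ≤ c • tr L G h⁻¹ e := fun ω => by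
          change e (G.a₂ h⁻¹ ω) * f ω ≤ c * e (G.a₂ h⁻¹ ω)
          by_cases h4 : e (G.a₂ h⁻¹ ω) = 0
          · rw [h4]; simp
          · have h5 := hc h hh _ h4
            rw [← G.mul₂, mul_inv_cancel, G.one₂] at h5
            rw [mul_comm c]
            exact mul_le_mul_of_nonneg_left h5 (he _)
        have h4 := G.mono h3 (cj (L.W h) x (v i))
        rw [G.re_smul] at h4
        exact h4
      · rw [Set.indicator_of_mem (show h ∈ (Bᶜ : Set S2) from hh), Kf_eq]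
        have h4 := G.mono h2 (cj (L.W h) x (v i))
        rw [G.re_smul] at h4
        have h5 : 0 ≤ c * G.fn (cj (L.W h) x (v i)) (tr L G h⁻¹ e) := mul_nonneg hc' (G.nonneg (f := tr L G h⁻¹ e) (fun ω => he (G.a₂ h⁻¹ ω)) _)
        rw [GF.fn_apply, GF.fn_apply] at *
        linarith
    have h2 : ∫ h, Kf L G x e (G.θ (rt f) (v i)) h ∂μ ≤
        ∫ h, (c * Kf L G x e (v i) h + ‖f‖ * (Bᶜ : Set S2).indicator (Kf L G x e (v i)) h) ∂μ :=
      integral_mono (hint _ _) (((hint _ _).const_mul c).add (((hint _ _).indicator hBm).const_mul _)) h1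
    rw [integral_add ((hint _ _).const_mul c) (((hint _ _).indicator hBm).const_mul _), integral_const_mul, integral_const_mul,
      integral_indicator hBm, hM, hM, G.norm_rt hf] at h2
    rw [hμM, hνa, GF.fn_apply]
    refine h2.trans ?_
    have h3 : 0 ≤ M e := by
      rw [← hμM, hμ'a]
      exact integral_nonneg fun h => Kf_nonneg L G x he _ _
    have h4 : ‖v i‖ ^ 2 ≤ 1 := pow_le_one₀ (norm_nonneg _) (hv i)
    have h5 : c * (M e * ‖v i‖ ^ 2) ≤ c * (M e * 1) := by gcongr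
    linarith)
  exact ⟨B, hB, ω₀, hω₀⟩

end Pool.Agent.Helper96.TZ
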